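import Pool.Agent.Lib.MP_e4fca8_an.Interp

/-! A symbol of bounded variation from `ℓ³` to `ℂ` with an unbounded multiplier operator. -/

open MeasureTheory Finset Real
open scoped ENNReal NNReal FourierTransform SchwartzMap ContDiff

namespace Pool.Agent.Lib.MP_e4fca8_an

lemma radAvg_le_sqrt {n : ℕ} (a : Fin n → ℂ) : radAvg a ≤ √(∑ i, ‖a i‖ ^ 2) := by
  have h := avg_le_rpow (fun ε : Fin n → Bool => ‖sg ε a‖) (fun _ => norm_nonneg _) (p := 2)
    (by norm_num)
  have h2 : (0 : ℝ) < 2 ^ n := by positivity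
  simp only [Real.rpow_two] at h
  rwa [second_moment, mul_div_cancel_left₀ _ h2.ne', ← Real.sqrt_eq_rpow] at h

lemma type_two : HasType ℂ 2 := by
  refine ⟨1, fun n x => ?_⟩
  have := radAvg_le_sqrt x
  rw [Real.sqrt_eq_rpow] at this
  simpa using this

lemma sg_apply3 {n : ℕ} (ε : Fin n → Bool) (x : Fin n → LP 3) (j : ℕ) :
    (sg ε x) j = sg ε (fun i => x i j) := by
  unfold sg
  rw [lp.coeFn_sum, Finset.sum_apply]
  refine Finset.sum_congr rfl fun i _ => ?_
  split_ifs <;> simp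

lemma mink3 {n : ℕ} (x : Fin n → LP 3) (s : Finset ℕ) :
    ∑ j ∈ s, radAvg (fun i => x i j) ^ 3 ≤ radAvg x ^ 3 := by
  set a : ℕ → ℝ := fun j => radAvg fun i => x i j with ha
  have ha0 : ∀ j, 0 ≤ a j := fun j => radAvg_nonneg _
  set S := ∑ j ∈ s, a j ^ 3 with hS
  have hS0 : 0 ≤ S := sum_nonneg fun j _ => pow_nonneg (ha0 j) 3
  have hR := radAvg_nonneg x
  have h1 : S ≤ radAvg x * S ^ (2 / 3 : ℝ) := by
    have e : S = (∑ ε : Fin n → Bool, ∑ j ∈ s, ‖sg ε x j‖ * a j ^ (2 : ℝ)) / 2 ^ n := by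
      rw [sum_comm, sum_div, hS]
      refine sum_congr rfl fun j _ => ?_
      simp only [sg_apply3]
      rw [← sum_mul, mul_div_right_comm, ← radAvg_eq, Real.rpow_two]
      simp only [ha]
      ring
    have h2 : ∀ ε : Fin n → Bool, ∑ j ∈ s, ‖sg ε x j‖ * a j ^ (2 : ℝ) ≤
        ‖sg ε x‖ * S ^ (2 / 3 : ℝ) := fun ε => by
      have := holder_step r3 (by norm_num) (q := 3 / 2) (c := 2)
        (by rw [Real.holderConjugate_iff]; norm_num) (by norm_num) (sg ε x) a ha0 s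
      rwa [show (1 / (3 / 2) : ℝ) = 2 / 3 by norm_num] at this
    calc S = _ := e
      _ ≤ (∑ ε : Fin n → Bool, ‖sg ε x‖ * S ^ (2 / 3 : ℝ)) / 2 ^ n := by
        gcongr with ε
        exact h2 ε
      _ = _ := by rw [← sum_mul, mul_div_right_comm, ← radAvg_eq]
  rcases hS0.eq_or_lt with h | h
  · rw [← h]
    positivity
  · have h1 := pow_le_pow_left₀ hS0 h1 3
    rw [mul_pow, ← Real.rpow_natCast (S ^ (2 / 3 : ℝ)), ← Real.rpow_mul hS0] at h1
    norm_num at h1
    have h2 : S ^ 2 * S ≤ S ^ 2 * radAvg x ^ 3 := by nlinarith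
    exact le_of_mul_le_mul_left h2 (by positivity)

lemma sum_sq_le {n : ℕ} (a : Fin n → ℂ) : ∑ i, ‖a i‖ ^ 2 ≤ 4 * radAvg a ^ 2 := by
  have h := pow_le_pow_left₀ (Real.sqrt_nonneg _) (khintchine a) 2
  rw [Real.sq_sqrt (by positivity)] at h
  linarith

lemma cotype_three : HasCotype (LP 3) 3 := by
  refine ⟨2, fun n x => ?_⟩
  have hR := radAvg_nonneg x
  have h1 : ∑ i, ‖x i‖ ^ 3 ≤ (2 * radAvg x) ^ 3 := by
    refine hasSum_le_of_sum_le (hasSum_sum fun i (_ : i ∈ univ) =>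
      hasSum_nat r3 (by norm_num) (x i)) fun s => ?_
    rw [mul_pow]
    refine le_trans ?_ (mul_le_mul_of_nonneg_left (mink3 x s) (by norm_num))
    rw [mul_sum]
    refine sum_le_sum fun j _ => ?_
    have h2 := sum_sq_le fun i => x i j
    have h0 := radAvg_nonneg fun i => x i j
    have h3 : ∀ i, ‖x i j‖ ≤ 2 * radAvg fun i => x i j := fun i =>
      le_of_pow_le_pow_left₀ (n := 2) (by norm_num) (by positivity)
        ((single_le_sum (f := fun i => ‖x i j‖ ^ 2) (fun i _ => by positivity)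
          (mem_univ i)).trans (h2.trans_eq (by ring)))
    calc ∑ i, ‖x i j‖ ^ 3 ≤ ∑ i, ‖x i j‖ ^ 2 * (2 * radAvg fun i => x i j) :=
          sum_le_sum fun i _ => by
            rw [pow_succ]
            exact mul_le_mul_of_nonneg_left (h3 i) (by positivity)
      _ = (∑ i, ‖x i j‖ ^ 2) * (2 * radAvg fun i => x i j) := by rw [sum_mul]
      _ ≤ (4 * radAvg (fun i => x i j) ^ 2) * (2 * radAvg fun i => x i j) :=
          mul_le_mul_of_nonneg_right h2 (by positivity)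
      _ = _ := by ring
  have e : ∀ i, ‖x i‖ ^ (3 : ℝ) = ‖x i‖ ^ 3 := fun i => by
    exact_mod_cast Real.rpow_natCast ‖x i‖ 3
  simp only [e]
  refine (Real.rpow_le_rpow (by positivity) h1 (by norm_num)).trans_eq ?_
  rw [one_div]
  exact_mod_cast Real.pow_rpow_inv_natCast (x := 2 * radAvg x) (n := 3) (by positivity)
    (by norm_num)

lemma rbound3 (δ : ℕ → ℝ) (T : ℝ) (hT0 : 0 ≤ T)
    (hT : ∀ F : Finset ℕ, ∑ j ∈ F, δ j ^ 6 ≤ T) {n : ℕ} (j : Fin n → ℕ) (c : Fin n → ℂ)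
    (x : Fin n → LP 3) (hc : ∀ i, ‖c i‖ ≤ δ (j i)) :
    radAvg (fun i => c i * x i (j i)) ≤ 2 * (T + 2) * radAvg x := by
  set F := univ.image j
  set a : ℕ → ℝ := fun k => radAvg fun i => x i k with ha
  have ha0 : ∀ k, 0 ≤ a k := fun k => radAvg_nonneg _
  have hR := radAvg_nonneg x
  have h1 : ∑ i, ‖c i * x i (j i)‖ ^ 2 ≤ 4 * ∑ k ∈ F, δ k ^ 2 * a k ^ 2 := by
    calc ∑ i, ‖c i * x i (j i)‖ ^ 2 ≤ ∑ i, ∑ k ∈ F, δ k ^ 2 * ‖x i k‖ ^ 2 := by
          refine sum_le_sum fun i _ => le_trans ?_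
            (single_le_sum (f := fun k => δ k ^ 2 * ‖x i k‖ ^ 2) (fun k _ => by positivity)
              (mem_image_of_mem j (mem_univ i)))
          rw [norm_mul, mul_pow]
          exact mul_le_mul_of_nonneg_right (pow_le_pow_left₀ (norm_nonneg _) (hc i) 2)
            (by positivity)
      _ ≤ _ := by
          rw [sum_comm, mul_sum]
          refine sum_le_sum fun k _ => ?_
          rw [← mul_sum, mul_left_comm]
          exact mul_le_mul_of_nonneg_left (sum_sq_le fun i => x i k) (by positivity)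
  have h2 := mink3 x F
  have h3 : ∑ k ∈ F, δ k ^ 2 * a k ^ 2 ≤ (T + 2) * radAvg x ^ 2 := by
    rcases hR.eq_or_lt with h | h
    · refine (sum_eq_zero fun k hk => ?_).trans_le (by positivity)
      have h4 := (single_le_sum (f := fun k => a k ^ 3) (fun k _ => pow_nonneg (ha0 k) 3)
        hk).trans h2
      rw [← h, zero_pow (by norm_num)] at h4
      have h5 : a k = 0 := pow_eq_zero_iff (n := 3) (by norm_num) |>.1
        (le_antisymm h4 (pow_nonneg (ha0 k) 3))
      simp [h5]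
    · refine le_of_mul_le_mul_left ?_ h
      have h4 : ∀ k, radAvg x * (δ k ^ 2 * a k ^ 2) ≤ radAvg x ^ 3 * δ k ^ 6 + 2 * a k ^ 3 := by
        intro k
        have b1 : 0 ≤ radAvg x * δ k ^ 2 := by positivity
        have b2 := ha0 k
        rw [show radAvg x ^ 3 * δ k ^ 6 = (radAvg x * δ k ^ 2) ^ 3 by ring, ← mul_assoc]
        generalize radAvg x * δ k ^ 2 = u at b1
        generalize a k = v at b2
        nlinarith [mul_nonneg (sq_nonneg (u - v)) (add_nonneg b1 (mul_nonneg zero_le_two b2)),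
          mul_nonneg b1 (sq_nonneg v)]
      rw [mul_sum]
      refine (sum_le_sum fun k _ => h4 k).trans ?_
      rw [sum_add_distrib, ← mul_sum, ← mul_sum]
      have h5 := mul_le_mul_of_nonneg_left (hT F) (pow_nonneg hR 3)
      nlinarith
  refine (radAvg_le_sqrt _).trans (Real.sqrt_le_iff.2 ⟨by positivity, ?_⟩)
  have h6 : 0 ≤ radAvg x ^ 2 := by positivity
  nlinarith [mul_nonneg (mul_nonneg hT0 hT0) h6, mul_nonneg hT0 h6]

/-- amplitude of the symbol on the `j`-th dyadic interval -/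
noncomputable def amp (j : ℕ) : ℝ := ((2 : ℝ) ^ Nat.log 32 j)⁻¹

/-- translation length on the `j`-th dyadic interval -/
def sh (j : ℕ) : ℕ := j % 2 ^ Nat.log 32 j

lemma amp_pos (j : ℕ) : 0 < amp j := by unfold amp; positivity

lemma amp_mul (j : ℕ) : amp j * ((sh j : ℝ) + 1) ≤ 1 := by
  have h : sh j + 1 ≤ 2 ^ Nat.log 32 j := Nat.mod_lt _ (by positivity)
  unfold amp
  rw [inv_mul_le_iff₀ (by positivity), mul_one]
  exact_mod_cast h

lemma amp_summable : Summable fun j => amp j ^ 6 := by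
  have h1 : Summable fun j : ℕ => ((j : ℝ) ^ (6 / 5 : ℝ))⁻¹ :=
    Real.summable_nat_rpow_inv.mpr (by norm_num)
  refine Summable.of_nonneg_of_le (fun j => pow_nonneg (amp_pos j).le 6) (fun j => ?_)
    (((summable_nat_add_iff 1).mpr h1).mul_left 64)
  have h2 : j + 1 ≤ 32 ^ (Nat.log 32 j + 1) := Nat.lt_pow_succ_log_self (by norm_num) j
  have h3 : ((j + 1 : ℕ) : ℝ) ≤ (2 * 2 ^ Nat.log 32 j) ^ 5 := by
    rw [← pow_succ', ← pow_mul, mul_comm, pow_mul]
    exact_mod_cast h2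
  have h4 := Real.rpow_le_rpow (by positivity) h3 (by norm_num : (0 : ℝ) ≤ 6 / 5)
  rw [← Real.rpow_natCast (2 * 2 ^ Nat.log 32 j), ← Real.rpow_mul (by positivity)] at h4
  norm_num at h4
  unfold amp
  rw [inv_pow, ← div_eq_mul_inv, inv_eq_one_div, div_le_div_iff₀ (by positivity) (by positivity)]
  push_cast
  rw [one_mul]
  refine h4.trans (le_of_eq ?_)
  ring

/-- coordinate functional -/
noncomputable def ev3 (j : ℕ) : LP 3 →L[ℂ] ℂ := lp.evalCLM ℂ (fun _ : ℕ => ℂ) 3 j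

lemma ev3_apply (j : ℕ) (x : LP 3) : ev3 j x = x j := rfl

lemma norm_ev3 (j : ℕ) : ‖ev3 j‖ ≤ 1 :=
  ContinuousLinearMap.opNorm_le_bound _ zero_le_one fun x => by
    rw [one_mul]
    exact lp.norm_apply_le_norm (by norm_num) x j

/-- the symbol on the `j`-th interval -/
noncomputable def nj (j : ℕ) (ξ : ℝ) : LP 3 →L[ℂ] ℂ := ((amp j : ℂ) * ex (sh j * ξ)) • ev3 j

/-- the symbol -/
noncomputable def sym3 (ξ : ℝ) : LP 3 →L[ℂ] ℂ := ∑' j, (Iv j).indicator (nj j) ξ

lemma sym3_dyadic {j : ℕ} {ξ : ℝ} (h : (2 : ℝ) ^ j ≤ ξ ∧ ξ < 2 ^ (j + 1)) :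
    sym3 ξ = (Iv j).indicator (nj j) ξ := by
  unfold sym3
  refine tsum_eq_single j fun k hk => ?_
  refine Set.indicator_of_notMem (fun hξ => hk ?_) _
  exact dyadic_unique (Iv_sub hξ) h

lemma sym3_mem {j : ℕ} {ξ : ℝ} (h : ξ ∈ Iv j) : sym3 ξ = nj j ξ := by
  rw [sym3_dyadic (Iv_sub h), Set.indicator_of_mem h]

lemma sym3_not {ξ : ℝ} (h : ∀ j, ξ ∉ Iv j) : sym3 ξ = 0 := by
  unfold sym3
  simp [Set.indicator_of_notMem (h _)]

lemma sym3_small {ξ : ℝ} (h : ξ < 1) : sym3 ξ = 0 := by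
  refine sym3_not fun j hj => ?_
  have : (1 : ℝ) ≤ 2 ^ j := one_le_pow₀ (by norm_num)
  linarith [hj.1]

lemma sym3_meas : StronglyMeasurable sym3 := by
  have hc : ∀ j, Continuous (nj j) := fun j => by
    unfold nj
    have := ex_cont
    fun_prop
  refine stronglyMeasurable_of_tendsto Filter.atTop
    (f := fun n ξ => ∑ j ∈ Finset.range n, (Iv j).indicator (nj j) ξ) (fun n => ?_) ?_
  · exact Finset.stronglyMeasurable_fun_sum _ fun j _ =>
      (hc j).stronglyMeasurable.indicator measurableSet_Ico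
  · rw [tendsto_pi_nhds]
    intro ξ
    apply HasSum.tendsto_sum_nat
    apply Summable.hasSum
    by_cases h : ∃ j, ξ ∈ Iv j
    · obtain ⟨j, hj⟩ := h
      refine summable_of_ne_finset_zero (s := {j}) fun k hk => ?_
      refine Set.indicator_of_notMem (fun hξ => hk ?_) _
      simpa using dyadic_unique (Iv_sub hξ) (Iv_sub hj)
    · push Not at h
      simp only [Set.indicator_of_notMem (h _)]
      exact summable_zero

lemma sym3_rbounded : RBounded (Set.range sym3) := by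
  refine ⟨2 * (∑' j, amp j ^ 6 + 2), fun n A x hA => ?_⟩
  have hex : ∀ i, ∃ (j : ℕ) (c : ℂ), ‖c‖ ≤ amp j ∧ ∀ z, A i z = c * z j := by
    intro i
    obtain ⟨ξ, hξ⟩ := hA i
    by_cases h : ∃ j, ξ ∈ Iv j
    · obtain ⟨j, hj⟩ := h
      refine ⟨j, (amp j : ℂ) * ex (sh j * ξ), ?_, fun z => ?_⟩
      · rw [norm_mul, norm_ex, mul_one, Complex.norm_real, Real.norm_of_nonneg (amp_pos j).le]
      · rw [← hξ, sym3_mem hj]
        rfl
    · push Not at h
      refine ⟨0, 0, by simpa using (amp_pos 0).le, fun z => ?_⟩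
      rw [← hξ, sym3_not h]; simp
  choose j c hc hAc using hex
  simp only [hAc]
  exact rbound3 amp _
    (tsum_nonneg fun j => pow_nonneg (amp_pos j).le 6)
    (fun F => amp_summable.sum_le_tsum F fun j _ => pow_nonneg (amp_pos j).le 6) j c x hc

lemma sym3_var {s : ℝ} (hs : 1 ≤ s) : DyadicVariationBounded s sym3 := by
  refine ⟨7, fun k N u hu hJ => ?_⟩
  have hs0 : 0 < s := by linarith
  refine (sum_sq_rpow_le univ _ (fun i => by positivity) (by positivity)
    ((div_le_one hs0).2 hs)).trans ?_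
  simp only [one_div, Real.rpow_rpow_inv (norm_nonneg _) hs0.ne']
  have zero_case : (∀ i, u i < 1) →
      ∑ i : Fin N, ‖sym3 (u i.succ) - sym3 (u i.castSucc)‖ ≤ 7 := by
    intro h
    simp only [sym3_small (h _)]
    simp
  rcases hJ with hJ | hJ
  swap
  · refine zero_case fun i => ?_
    have h1 := (hJ i).1
    have : (0 : ℝ) < 2 ^ k := by positivity
    linarith
  rcases lt_or_ge k 0 with hk | hk
  · refine zero_case fun i => ?_
    have h1 := (hJ i).2
    have : (2 : ℝ) ^ (k + 1) ≤ 1 := zpow_le_one_of_nonpos₀ (by norm_num) (by omega)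
    linarith
  obtain ⟨j, rfl⟩ := Int.eq_ofNat_of_zero_le hk
  have hJ' : ∀ i, (2 : ℝ) ^ j ≤ u i ∧ u i < 2 ^ (j + 1) := by
    intro i
    have := hJ i
    rw [show ((j : ℤ) + 1) = ((j + 1 : ℕ) : ℤ) by push_cast; rfl, zpow_natCast, zpow_natCast]
      at this
    exact this
  set c : ℝ := 2 ^ j + 1 with hc
  set g : ℝ → ℂ := fun v => if v < c then (amp j : ℂ) * ex (sh j * v) else 0 with hg
  have hsym : ∀ i, sym3 (u i) = g (u i) • ev3 j := by
    intro i
    rw [sym3_dyadic (hJ' i)]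
    simp only [hg]
    split_ifs with h
    · rw [Set.indicator_of_mem (show u i ∈ Iv j from ⟨(hJ' i).1, h⟩)]; rfl
    · rw [Set.indicator_of_notMem (fun hh : u i ∈ Iv j => h hh.2)]
      exact (zero_smul ℂ (ev3 j)).symm
  have hδ := amp_pos j
  set φ : ℝ → ℝ := fun v => 2 * π * sh j * min v c + (if v < c then 0 else 1) with hφ
  have hpi := Real.pi_pos
  have hlip : ∀ v w, v ≤ w → ‖g w - g v‖ ≤ amp j * (φ w - φ v) := by
    intro v w hvw
    simp only [hg, hφ]
    by_cases hw : w < c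
    · have hv : v < c := hvw.trans_lt hw
      simp only [hw, hv, if_true, min_eq_left hw.le, min_eq_left hv.le]
      rw [← mul_sub, norm_mul, Complex.norm_real, Real.norm_of_nonneg hδ.le]
      refine mul_le_mul_of_nonneg_left ((ex_lip _ _).trans_eq ?_) hδ.le
      rw [← mul_sub, abs_mul, abs_of_nonneg (by positivity), abs_of_nonneg (by linarith)]
      ring
    · by_cases hv : v < c
      · simp only [hw, hv, if_true, if_false, min_eq_left hv.le, min_eq_right (not_lt.mp hw)]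
        rw [zero_sub, norm_neg, norm_mul, norm_ex, mul_one, Complex.norm_real,
          Real.norm_of_nonneg hδ.le]
        have h0 : 0 ≤ c - v := by linarith
        have : 0 ≤ 2 * π * sh j * (c - v) := by positivity
        nlinarith
      · simp [hw, hv, min_eq_right (not_lt.mp hw), min_eq_right (not_lt.mp hv)]
  have hterm : ∀ i : Fin N, ‖sym3 (u i.succ) - sym3 (u i.castSucc)‖
      ≤ amp j * (φ (u i.succ) - φ (u i.castSucc)) := by
    intro i
    rw [hsym, hsym, show g (u i.succ) • ev3 j - g (u i.castSucc) • ev3 j =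
      (g (u i.succ) - g (u i.castSucc)) • ev3 j from (sub_smul _ _ _).symm, norm_smul]
    exact (mul_le_of_le_one_right (norm_nonneg _) (norm_ev3 j)).trans
      (hlip _ _ (hu (Fin.castSucc_lt_succ (i := i))).le)
  refine (Finset.sum_le_sum fun i _ => hterm i).trans ?_
  rw [← Finset.mul_sum, fin_telescope (fun i => φ (u i))]
  have e3 : φ (u (Fin.last N)) - φ (u 0) ≤ 7 * ((sh j : ℝ) + 1) := by
    simp only [hφ]
    have a1 : min (u (Fin.last N)) c ≤ c := min_le_right _ _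
    have a2 : c - 1 ≤ min (u 0) c := le_min (by linarith [(hJ' 0).1]) (by linarith)
    have a3 : 2 * π * sh j * (min (u (Fin.last N)) c - min (u 0) c) ≤ 2 * π * sh j * 1 :=
      mul_le_mul_of_nonneg_left (by linarith) (by positivity)
    have a4 : π < 3.15 := Real.pi_lt_d2
    have a5 : (0 : ℝ) ≤ sh j := by positivity
    split_ifs <;> nlinarith
  have := mul_le_mul_of_nonneg_left e3 hδ.le
  linarith [amp_mul j]

section test

variable {E : Type} [NormedAddCommGroup E] [NormedSpace ℂ E]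

/-- Fourier transform of the test function -/
noncomputable def g3 (s : Finset ℕ) (v : ℕ → E) (ξ : ℝ) : E :=
  ∑ j ∈ s, (ex (-(sh j * ξ)) * psi (ξ - 2 ^ j)) • v j

lemma g3_smooth (s : Finset ℕ) (v : ℕ → E) : ContDiff ℝ ∞ (g3 s v) := by
  unfold g3
  refine ContDiff.sum fun j _ => ContDiff.smul (ContDiff.mul ?_ (psi_smooth.comp (by fun_prop)))
    contDiff_const
  unfold ex
  refine Complex.contDiff_exp.comp (ContDiff.mul contDiff_const ?_)
  have : ContDiff ℝ ∞ (fun ξ : ℝ => 2 * π * -(sh j * ξ)) := by fun_prop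
  exact Complex.ofRealCLM.contDiff.comp this

lemma g3_cs (s : Finset ℕ) (v : ℕ → E) : HasCompactSupport (g3 s v) := by
  refine HasCompactSupport.intro (K := Set.Icc 0 (∑ j ∈ s, 2 ^ j + 1)) isCompact_Icc
    fun x hx => ?_
  refine Finset.sum_eq_zero fun j hj => ?_
  by_contra h
  have h1 := psi_ne (right_ne_zero_of_mul (left_ne_zero_of_smul h))
  have h2 : (2 : ℝ) ^ j ≤ ∑ j ∈ s, 2 ^ j :=
    single_le_sum (f := fun j => (2 : ℝ) ^ j) (fun j _ => by positivity) hj
  have h3 : (0 : ℝ) < 2 ^ j := by positivity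
  exact hx ⟨by linarith [h1.1], by linarith [h1.2]⟩

/-- the test function -/
noncomputable def f3 (s : Finset ℕ) (v : ℕ → E) : 𝓢(ℝ, E) :=
  𝓕⁻ ((g3_cs s v).toSchwartzMap (g3_smooth s v))

variable [CompleteSpace E]

lemma fourier_f3 (s : Finset ℕ) (v : ℕ → E) : 𝓕 (f3 s v : ℝ → E) = g3 s v := by
  rw [← SchwartzMap.fourier_coe, f3, FourierTransform.fourier_fourierInv_eq]
  rfl

lemma f3_eq (s : Finset ℕ) (v : ℕ → E) (x : ℝ) : f3 s v x =
    ∑ j ∈ s, (ex (2 ^ j * (x - sh j)) * phiS (x - sh j)) • v j := by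
  rw [f3, SchwartzMap.fourierInv_coe, fourierInv_ex]
  have e : ∀ ξ : ℝ, ex (ξ * x) • ((g3_cs s v).toSchwartzMap (g3_smooth s v)) ξ
      = ∑ j ∈ s, (ex (ξ * (x - sh j)) * psi (ξ - 2 ^ j)) • v j := by
    intro ξ
    change ex (ξ * x) • g3 s v ξ = _
    rw [g3, Finset.smul_sum]
    refine Finset.sum_congr rfl fun j _ => ?_
    rw [smul_smul, ← mul_assoc, ← ex_add]
    congr 3
    ring
  simp only [e]
  rw [integral_finsetSum _ fun j _ => (int_shift _ _).smul_const _]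
  refine Finset.sum_congr rfl fun j _ => ?_
  rw [integral_smul_const, shift_int]

end test

/-- signed unit vectors -/
noncomputable def sv (η : ℕ → ℂ) (j : ℕ) : LP 3 := lp.single 3 j (η j)

lemma f3_norm (s : Finset ℕ) (η : ℕ → ℂ) (hη : ∀ j, ‖η j‖ = 1) (x : ℝ) :
    ‖f3 s (sv η) x‖ ^ 3 = ∑ j ∈ s, ‖phiS (x - sh j)‖ ^ 3 := by
  have h := lp.norm_sum_single (E := fun _ : ℕ => ℂ) (p := 3) (by norm_num)
    (fun j => (ex (2 ^ j * (x - sh j)) * phiS (x - sh j)) • η j) s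
  simp only [r3, Real.rpow_natCast, norm_smul, norm_mul, norm_ex, hη, one_mul, mul_one,
    lp.single_smul] at h
  rw [f3_eq]
  exact h

lemma sym3_g3 (s : Finset ℕ) (η : ℕ → ℂ) (ξ : ℝ) :
    sym3 ξ (g3 s (sv η) ξ) = ∑ j ∈ s, psi (ξ - 2 ^ j) * (η j * amp j) := by
  rw [g3, map_sum]
  refine Finset.sum_congr rfl fun j _ => ?_
  by_cases h : psi (ξ - 2 ^ j) = 0
  · simp [h]
  · have h1 := psi_ne h
    have h2 : ξ ∈ Iv j := ⟨by linarith [h1.1], by linarith [h1.2]⟩
    have h3 : ev3 j (sv η j) = η j := lp.single_apply_self (E := fun _ : ℕ => ℂ) 3 j (η j)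
    rw [sym3_mem h2, nj, map_smul, smul_apply, h3]
    have : ex (sh j * ξ) * ex (-(sh j * ξ)) = 1 := by rw [← ex_add]; simp [ex_zero]
    simp only [smul_eq_mul]
    linear_combination (amp j : ℂ) * psi (ξ - 2 ^ j) * η j * this

lemma T3_eq (s : Finset ℕ) (η : ℕ → ℂ) :
    𝓕⁻ (fun ξ : ℝ => sym3 ξ (𝓕 (f3 s (sv η) : ℝ → LP 3) ξ)) =
      fun x => (∑ j ∈ s, η j * (amp j * ex (2 ^ j * x))) * phiS x := by
  funext x
  rw [fourier_f3, fourierInv_ex]
  simp only [sym3_g3, smul_eq_mul, Finset.mul_sum, ← mul_assoc]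
  rw [integral_finsetSum _ fun j _ => ((int_shift _ _).mul_const _).mul_const _, sum_mul]
  refine Finset.sum_congr rfl fun j _ => ?_
  rw [integral_mul_const, integral_mul_const, shift_int]
  ring

lemma sum_mod (F : ℕ → ℝ) (K M : ℕ) :
    ∑ i ∈ range (K * M), F (i % K) = M * ∑ a ∈ range K, F a := by
  induction M with
  | zero => simp
  | succ M ih =>
    rw [Nat.mul_succ, sum_range_add, ih]
    have : ∑ a ∈ range K, F ((K * M + a) % K) = ∑ a ∈ range K, F a :=
      sum_congr rfl fun a ha => by rw [Nat.mul_add_mod, Nat.mod_eq_of_lt (mem_range.1 ha)]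
    rw [this]
    push_cast
    ring

lemma log_block {n i : ℕ} (hi : i < 32 ^ n) : Nat.log 32 (32 ^ n + i) = n :=
  Nat.log_eq_of_pow_le_of_lt_pow (by omega) (by rw [pow_succ]; omega)

lemma f3_upper : ∃ A : ℝ, ∀ (n : ℕ) (η : ℕ → ℂ), (∀ j, ‖η j‖ = 1) →
    ∫ x, ‖f3 (Ico (32 ^ n) (32 ^ n + 32 ^ n)) (sv η) x‖ ^ 12 ≤ A * (2 ^ n) ^ 17 := by
  obtain ⟨K, hK, hφ⟩ := phi_decay
  refine ⟨(8 * K) ^ 11 * ∫ x, ‖phiS x‖, fun n η hη => ?_⟩
  have hi : ∀ j : ℕ, Integrable fun x : ℝ => ‖phiS (x - j)‖ := fun j =>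
    (phiS.integrable.comp_sub_right (j : ℝ)).norm
  have e32 : 32 ^ n = 2 ^ n * 16 ^ n := mul_pow 2 16 n
  have h3 : ∫ x, ‖f3 (Ico (32 ^ n) (32 ^ n + 32 ^ n)) (sv η) x‖ ^ 12 ≤
      ∫ x, (16 ^ n) ^ 4 * (8 * K) ^ 11 * ∑ a ∈ range (2 ^ n), ‖phiS (x - a)‖ := by
    refine integral_mono_of_nonneg (Filter.Eventually.of_forall fun x => by positivity)
      ((integrable_finsetSum _ fun j _ => hi j).const_mul _)
      (Filter.Eventually.of_forall fun x => ?_)
    set Φ := ∑ a ∈ range (2 ^ n), ‖phiS (x - a)‖ with hΦ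
    have h0 : 0 ≤ Φ := sum_nonneg fun a _ => norm_nonneg _
    have h1 : Φ ≤ 8 * K := by
      refine (Finset.sum_le_sum fun j _ => hφ _).trans ?_
      rw [← Finset.mul_sum, mul_comm]
      exact mul_le_mul_of_nonneg_right (sum_inv_bound _ x) hK.le
    have h2 : ‖f3 (Ico (32 ^ n) (32 ^ n + 32 ^ n)) (sv η) x‖ ^ 3 ≤ 16 ^ n * Φ ^ 3 := by
      rw [f3_norm _ _ hη, sum_Ico_eq_sum_range, add_tsub_cancel_left]
      have : ∑ i ∈ range (32 ^ n), ‖phiS (x - sh (32 ^ n + i))‖ ^ 3 =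
          ∑ i ∈ range (2 ^ n * 16 ^ n), ‖phiS (x - (i % 2 ^ n : ℕ))‖ ^ 3 := by
        rw [← e32]
        refine sum_congr rfl fun i hi => ?_
        rw [sh, log_block (mem_range.1 hi), e32, Nat.mul_add_mod]
      rw [this, sum_mod (fun a => ‖phiS (x - a)‖ ^ 3)]
      push_cast
      refine mul_le_mul_of_nonneg_left ?_ (by positivity)
      rw [pow_succ' Φ 2, hΦ, sum_mul]
      refine sum_le_sum fun a ha => ?_
      rw [pow_succ']
      exact mul_le_mul_of_nonneg_left (pow_le_pow_left₀ (norm_nonneg _)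
        (single_le_sum (f := fun a : ℕ => ‖phiS (x - a)‖) (fun a _ => norm_nonneg _) ha) 2)
        (norm_nonneg _)
    have h4 := pow_le_pow_left₀ (by positivity) h2 4
    have h5 := mul_le_mul_of_nonneg_right (pow_le_pow_left₀ h0 h1 11) h0
    have h6 := mul_le_mul_of_nonneg_left h5 (show (0 : ℝ) ≤ (16 ^ n) ^ 4 by positivity)
    calc _ = (‖f3 (Ico (32 ^ n) (32 ^ n + 32 ^ n)) (sv η) x‖ ^ 3) ^ 4 := by ring
      _ ≤ (16 ^ n) ^ 4 * (Φ ^ 11 * Φ) := h4.trans_eq (by ring)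
      _ ≤ _ := h6.trans_eq (by ring)
  rw [integral_const_mul, integral_finsetSum _ fun j _ => hi j] at h3
  have h4 : ∀ j : ℕ, ∫ x : ℝ, ‖phiS (x - j)‖ = ∫ x, ‖phiS x‖ := fun j =>
    integral_sub_right_eq_self (fun x => ‖phiS x‖) (j : ℝ)
  simp only [h4, Finset.sum_const, Finset.card_range, nsmul_eq_mul] at h3
  refine h3.trans_eq ?_
  rw [show (16 : ℝ) ^ n = (2 ^ n) ^ 4 by rw [← pow_mul, mul_comm, pow_mul]; norm_num]
  push_cast
  ring

lemma exists_signs (N : ℕ) (ε : Fin N → Bool) : ∃ η : ℕ → ℂ, (∀ j, ‖η j‖ = 1) ∧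
    ∀ a : ℕ → ℂ, ∑ j ∈ Ico N (N + N), η j * a j = sg ε fun i => a (N + i) := by
  refine ⟨fun j => if h : j - N < N then (if ε ⟨j - N, h⟩ then 1 else -1) else 1, fun j => ?_,
    fun a => ?_⟩
  · dsimp only
    split_ifs <;> simp
  · rw [sum_Ico_eq_sum_range, add_tsub_cancel_left, ← Fin.sum_univ_eq_sum_range
      (fun i => (if h : N + i - N < N then (if ε ⟨N + i - N, h⟩ then 1 else -1) else 1) *
        a (N + i)), sg]
    refine sum_congr rfl fun i _ => ?_
    simp only [add_tsub_cancel_left, i.2, dif_pos, Fin.eta]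
    split_ifs <;> simp

lemma twelfth_moment {N : ℕ} (a : Fin N → ℂ) :
    2 ^ N * (∑ i, ‖a i‖ ^ 2) ^ 6 ≤ ∑ ε : Fin N → Bool, ‖sg ε a‖ ^ 12 := by
  have h := pow_sum_le_card_mul_sum_pow (s := (univ : Finset (Fin N → Bool)))
    (f := fun ε => ‖sg ε a‖ ^ 2) (fun _ _ => by positivity) 5
  simp only [second_moment, card_univ, Fintype.card_fun, Fintype.card_bool, Fintype.card_fin,
    ← pow_mul ‖_‖] at h
  push_cast at h
  refine le_of_mul_le_mul_left (le_trans (le_of_eq ?_) h) (by positivity)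
  ring

lemma int12 {E : Type} [NormedAddCommGroup E] {u : ℝ → E} (hu : MemLp u (ENNReal.ofReal 12)) :
    Integrable fun x => ‖u x‖ ^ 12 :=
  MemLp.integrable_norm_pow (p := 12) (f := u) (by simpa using hu) (by norm_num)

lemma int_le_of_eLp {E F : Type} [NormedAddCommGroup E] [NormedAddCommGroup F] {u : ℝ → E}
    {v : ℝ → F} (hu : MemLp u (ENNReal.ofReal 12)) (hv : MemLp v (ENNReal.ofReal 12)) {C : ℝ≥0}
    (h : eLpNorm u (ENNReal.ofReal 12) ≤ C * eLpNorm v (ENNReal.ofReal 12)) :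
    ∫ x, ‖u x‖ ^ 12 ≤ C ^ 12 * ∫ x, ‖v x‖ ^ 12 := by
  rw [hu.eLpNorm_eq_integral_rpow_norm (by simp) (by simp),
    hv.eLpNorm_eq_integral_rpow_norm (by simp) (by simp), ENNReal.toReal_ofReal (by norm_num),
    show (12 : ℝ) = (12 : ℕ) by norm_num, ← ENNReal.ofReal_coe_nnreal,
    ← ENNReal.ofReal_mul C.coe_nonneg, ENNReal.ofReal_le_ofReal_iff (by positivity)] at h
  simp only [Real.rpow_natCast] at h
  have h0 : 0 ≤ ∫ x, ‖u x‖ ^ 12 := integral_nonneg fun x => by positivity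
  have h1 : 0 ≤ ∫ x, ‖v x‖ ^ 12 := integral_nonneg fun x => by positivity
  have h2 := pow_le_pow_left₀ (by positivity) h 12
  rwa [mul_pow, Real.rpow_inv_natCast_pow h0 (by norm_num),
    Real.rpow_inv_natCast_pow h1 (by norm_num)] at h2

lemma sym3_unbounded : ¬ MultiplierBounded 12 sym3 := by
  rintro ⟨C, hC⟩
  obtain ⟨A, hA⟩ := f3_upper
  have hφ := phiS.memLp (ENNReal.ofReal 12) volume
  have hI : 0 < ∫ x, ‖phiS x‖ ^ 12 := by
    obtain ⟨x, hx⟩ : ∃ x, phiS x ≠ 0 := by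
      by_contra h
      push Not at h
      refine phi_pos ?_
      rw [show (phiS : ℝ → ℂ) = 0 from funext h, eLpNorm_zero]
    exact integral_pos_of_integrable_nonneg_nonzero (x := x) (by fun_prop) (int12 hφ)
      (fun x => by positivity) (pow_ne_zero _ (norm_ne_zero_iff.2 hx))
  have key : ∀ n : ℕ, 2 ^ n * ∫ x, ‖phiS x‖ ^ 12 ≤ C ^ 12 * A := by
    intro n
    let h : (Fin (32 ^ n) → Bool) → ℝ → ℂ := fun ε x =>
      sg ε (fun i => amp (32 ^ n + i) * ex (2 ^ (32 ^ n + i : ℕ) * x)) * phiS x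
    have hm : ∀ ε, MemLp (h ε) (ENNReal.ofReal 12) := fun ε => by
      refine hφ.of_le_mul (c := ∑ i : Fin (32 ^ n), amp (32 ^ n + i)) ?_
        (Filter.Eventually.of_forall fun x => ?_)
      · refine Continuous.aestronglyMeasurable (Continuous.mul ?_ phiS.continuous)
        refine continuous_finsetSum _ fun i _ => ?_
        have := ex_cont
        split_ifs <;> fun_prop
      · rw [norm_mul]
        refine mul_le_mul_of_nonneg_right ((norm_sum_le _ _).trans (sum_le_sum fun i _ => ?_))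
          (norm_nonneg _)
        split_ifs <;> simp [norm_ex, abs_of_pos (amp_pos _)]
    have h1 : ∀ ε, ∫ x, ‖h ε x‖ ^ 12 ≤ C ^ 12 * (A * (2 ^ n) ^ 17) := fun ε => by
      obtain ⟨η, a1, a2⟩ := exists_signs _ ε
      have a3 := hC (f3 (Ico (32 ^ n) (32 ^ n + 32 ^ n)) (sv η))
      rw [T3_eq] at a3
      simp only [a2 fun j => amp j * ex (2 ^ j * _)] at a3
      exact (int_le_of_eLp (hm ε) (SchwartzMap.memLp _ _ volume) a3).trans
        (mul_le_mul_of_nonneg_left (hA n η a1) (by positivity))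
    have h2 : ∫ x, 2 ^ 32 ^ n * (2 ^ n) ^ 18 * ‖phiS x‖ ^ 12 ≤ ∫ x, ∑ ε, ‖h ε x‖ ^ 12 := by
      refine integral_mono ((int12 hφ).const_mul _)
        (integrable_finsetSum _ fun ε _ => int12 (hm ε)) fun x => ?_
      simp only [h, norm_mul, mul_pow, ← sum_mul]
      refine mul_le_mul_of_nonneg_right (le_trans (le_of_eq ?_) (twelfth_moment _))
        (by positivity)
      have : ∀ i : Fin (32 ^ n), ‖(amp (32 ^ n + i) : ℂ) * ex (2 ^ (32 ^ n + i : ℕ) * x)‖ ^ 2 =
          (((2 : ℝ) ^ n)⁻¹) ^ 2 := fun i => by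
        rw [norm_mul, norm_ex, mul_one, Complex.norm_real, Real.norm_of_nonneg (amp_pos _).le,
          amp, log_block i.2]
      simp only [this, sum_const, card_univ, Fintype.card_fin, nsmul_eq_mul]
      push_cast
      rw [show (32 : ℝ) ^ n = (2 ^ n) ^ 5 by rw [← pow_mul, mul_comm, pow_mul]; norm_num]
      field_simp
    rw [integral_const_mul, integral_finsetSum _ fun ε _ => int12 (hm ε)] at h2
    have h3 := h2.trans (sum_le_sum fun ε _ => h1 ε)
    simp only [sum_const, card_univ, Fintype.card_fun, Fintype.card_bool, Fintype.card_fin,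
      nsmul_eq_mul] at h3
    push_cast at h3
    refine le_of_mul_le_mul_left (a := 2 ^ 32 ^ n * (2 ^ n) ^ 17) ?_ (by positivity)
    refine le_trans (le_of_eq ?_) (h3.trans_eq ?_) <;> ring
  obtain ⟨n, hn⟩ := pow_unbounded_of_one_lt (C ^ 12 * A / ∫ x, ‖phiS x‖ ^ 12) one_lt_two
  exact absurd (key n) (not_le.2 ((div_lt_iff₀ hI).1 hn))

end Pool.Agent.Lib.MP_e4fca8_an
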