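import Mathlib

/-! Definitions for operator-valued Fourier multipliers of bounded `s`-variation. -/

open MeasureTheory
open scoped ENNReal NNReal FourierTransform SchwartzMap

namespace Pool.Agent.Lib.MP_e4fca8_an

/-- The Rademacher average `E ‖∑ εᵢ xᵢ‖`, the mean over all `2 ^ n` choices of signs. -/
noncomputable def radAvg {X : Type} [NormedAddCommGroup X] {n : ℕ} (x : Fin n → X) : ℝ :=
  (∑ ε : Fin n → Bool, ‖∑ i, (if ε i then x i else -x i)‖) / 2 ^ n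

/-- `R`-boundedness of a family of operators. -/
def RBounded {X Y : Type} [NormedAddCommGroup X] [NormedSpace ℂ X] [NormedAddCommGroup Y]
    [NormedSpace ℂ Y] (S : Set (X →L[ℂ] Y)) : Prop :=
  ∃ C : ℝ, ∀ (n : ℕ) (T : Fin n → X →L[ℂ] Y) (x : Fin n → X), (∀ i, T i ∈ S) →
    radAvg (fun i => T i (x i)) ≤ C * radAvg x

/-- Rademacher type `t`. -/
def HasType (X : Type) [NormedAddCommGroup X] (t : ℝ) : Prop :=
  ∃ C : ℝ, ∀ (n : ℕ) (x : Fin n → X), radAvg x ≤ C * (∑ i, ‖x i‖ ^ t) ^ (1 / t)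

/-- Rademacher cotype `q`. -/
def HasCotype (X : Type) [NormedAddCommGroup X] (q : ℝ) : Prop :=
  ∃ C : ℝ, ∀ (n : ℕ) (x : Fin n → X), (∑ i, ‖x i‖ ^ q) ^ (1 / q) ≤ C * radAvg x

/-- The UMD property: for some `p ∈ (1, ∞)`, martingale differences are unconditional in
`L^p(Ω; X)` with a uniform constant. -/
def IsUMD (X : Type) [NormedAddCommGroup X] [NormedSpace ℂ X] : Prop :=
  ∃ p : ℝ≥0∞, 1 < p ∧ p < ∞ ∧ ∃ β : ℝ≥0,
    ∀ (Ω : Type) (m0 : MeasurableSpace Ω) (μ : Measure Ω), IsProbabilityMeasure μ →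
    ∀ (ℱ : Filtration ℕ m0) (f : ℕ → Ω → X), Martingale f ℱ μ → (∀ k, MemLp (f k) p μ) →
    ∀ (ε : ℕ → Bool) (n : ℕ),
      eLpNorm (fun ω => ∑ k ∈ Finset.range n,
          (if ε k then f (k + 1) ω - f k ω else -(f (k + 1) ω - f k ω))) p μ
        ≤ β * eLpNorm (fun ω => ∑ k ∈ Finset.range n, (f (k + 1) ω - f k ω)) p μ

/-- `F` is an admissible function on the strip for the couple `(X₀, X₁)` embedded in
`W = X₀ + X₁`, with boundary values `f₀`, `f₁`. -/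
def StripFun {X₀ X₁ W : Type} [NormedAddCommGroup X₀] [NormedSpace ℂ X₀]
    [NormedAddCommGroup X₁] [NormedSpace ℂ X₁] [NormedAddCommGroup W] [NormedSpace ℂ W]
    (i₀ : X₀ →L[ℂ] W) (i₁ : X₁ →L[ℂ] W) (F : ℂ → W) (f₀ : ℝ → X₀) (f₁ : ℝ → X₁) : Prop :=
  DifferentiableOn ℂ F {z | 0 < z.re ∧ z.re < 1} ∧
  ContinuousOn F {z | 0 ≤ z.re ∧ z.re ≤ 1} ∧
  (∃ B : ℝ, ∀ z : ℂ, 0 ≤ z.re → z.re ≤ 1 → ‖F z‖ ≤ B) ∧
  Continuous f₀ ∧ Continuous f₁ ∧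
  (∀ y : ℝ, F (y * Complex.I) = i₀ (f₀ y)) ∧ (∀ y : ℝ, F (1 + y * Complex.I) = i₁ (f₁ y))

/-- `X`, embedded by `j` in `W = X₀ + X₁`, is the complex interpolation space `[X₀, X₁]_θ`,
with equivalent norms. -/
def IsComplexInterpolation (θ : ℝ) {X X₀ X₁ W : Type} [NormedAddCommGroup X] [NormedSpace ℂ X]
    [NormedAddCommGroup X₀] [NormedSpace ℂ X₀]
    [NormedAddCommGroup X₁] [NormedSpace ℂ X₁] [NormedAddCommGroup W] [NormedSpace ℂ W]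
    (j : X →L[ℂ] W) (i₀ : X₀ →L[ℂ] W) (i₁ : X₁ →L[ℂ] W) : Prop :=
  Function.Injective j ∧ Function.Injective i₀ ∧ Function.Injective i₁ ∧
  (∀ w : W, ∃ a b, w = i₀ a + i₁ b) ∧
  ∃ C : ℝ,
    (∀ x : X, ∃ F f₀ f₁, StripFun i₀ i₁ F f₀ f₁ ∧ F θ = j x ∧
      (∀ y, ‖f₀ y‖ ≤ C * ‖x‖) ∧ (∀ y, ‖f₁ y‖ ≤ C * ‖x‖)) ∧
    (∀ F f₀ f₁ (M : ℝ), StripFun i₀ i₁ F f₀ f₁ → (∀ y, ‖f₀ y‖ ≤ M) → (∀ y, ‖f₁ y‖ ≤ M) →
      ∃ x : X, j x = F θ ∧ ‖x‖ ≤ C * M)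

/-- `X = [X₀, H]_θ` for a UMD Banach space `X₀` and a Hilbert space `H`. -/
def IsIntermediateUMD (θ : ℝ) (X : Type) [NormedAddCommGroup X] [NormedSpace ℂ X] : Prop :=
  ∃ (X₀ : Type) (_ : NormedAddCommGroup X₀) (_ : NormedSpace ℂ X₀) (_ : CompleteSpace X₀)
    (H : Type) (_ : NormedAddCommGroup H) (_ : InnerProductSpace ℂ H) (_ : CompleteSpace H)
    (W : Type) (_ : NormedAddCommGroup W) (_ : NormedSpace ℂ W) (_ : CompleteSpace W)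
    (j : X →L[ℂ] W) (i₀ : X₀ →L[ℂ] W) (i₁ : H →L[ℂ] W),
    IsUMD X₀ ∧ IsComplexInterpolation θ j i₀ i₁

/-- The `s`-variations of `m` over the dyadic intervals `±[2^k, 2^(k+1))` are uniformly
bounded. -/
def DyadicVariationBounded {E : Type} [NormedAddCommGroup E] (s : ℝ) (m : ℝ → E) : Prop :=
  ∃ C : ℝ, ∀ (k : ℤ) (N : ℕ) (u : Fin (N + 1) → ℝ), StrictMono u →
    ((∀ i, u i ∈ Set.Ico ((2 : ℝ) ^ k) (2 ^ (k + 1))) ∨
      (∀ i, -u i ∈ Set.Ico ((2 : ℝ) ^ k) (2 ^ (k + 1)))) →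
    (∑ i : Fin N, ‖m (u i.succ) - m (u i.castSucc)‖ ^ s) ^ (1 / s) ≤ C

/-- The Fourier multiplier operator with symbol `m` is bounded from `L^p(ℝ; X)` to
`L^p(ℝ; Y)`, tested on Schwartz functions. -/
def MultiplierBounded {X Y : Type} [NormedAddCommGroup X] [NormedSpace ℂ X]
    [NormedAddCommGroup Y] [NormedSpace ℂ Y] (p : ℝ) (m : ℝ → X →L[ℂ] Y) : Prop :=
  ∃ C : ℝ≥0, ∀ f : 𝓢(ℝ, X),
    eLpNorm (𝓕⁻ (fun ξ : ℝ => m ξ (𝓕 (f : ℝ → X) ξ))) (ENNReal.ofReal p) volume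
      ≤ C * eLpNorm (f : ℝ → X) (ENNReal.ofReal p) volume

end Pool.Agent.Lib.MP_e4fca8_an
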