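import Pool.Agent.Lib.MP_e4fca8_an.Unbounded

/-! The space `ℓ⁴` is UMD and `ℓ³` is the complex interpolation space of `ℓ⁴` and `ℓ²` at `1/3`. -/

open MeasureTheory Finset Filter
open scoped ENNReal NNReal Topology

namespace Pool.Agent.Lib.MP_e4fca8_an

instance fact3 : Fact ((1 : ℝ≥0∞) ≤ 3) := ⟨by norm_num⟩
instance fact4 : Fact ((1 : ℝ≥0∞) ≤ 4) := ⟨by norm_num⟩

/-- complex sequence space -/
abbrev LP (p : ℝ≥0∞) : Type := lp (fun _ : ℕ => ℂ) p

section seq

variable {p : ℝ≥0∞} {k : ℕ}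

lemma hasSum_nat (hp : p.toReal = k) (hk : 0 < k) (y : LP p) :
    HasSum (fun j => ‖y j‖ ^ k) (‖y‖ ^ k) := by
  have := lp.hasSum_norm (p := p) (by rw [hp]; exact_mod_cast hk) y
  simpa only [hp, Real.rpow_natCast] using this

lemma mem_of_bound (hp : p.toReal = k) {g : ℕ → ℂ} {b : ℕ → ℝ} (hb : Summable b)
    (h : ∀ j, ‖g j‖ ^ k ≤ b j) : Memℓp g p := by
  refine memℓp_gen ?_
  simp only [hp, Real.rpow_natCast]
  exact Summable.of_nonneg_of_le (fun j => by positivity) h hb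

open Classical in
/-- a sequence as an element of the sequence space, when it belongs to it -/
noncomputable def mkL (p : ℝ≥0∞) (g : ℕ → ℂ) : LP p := if h : Memℓp g p then ⟨g, h⟩ else 0

lemma mkL_apply {g : ℕ → ℂ} (h : Memℓp g p) (j : ℕ) : mkL p g j = g j := by
  simp [mkL, h]

lemma mkL_norm (hp : p.toReal = k) (hk : 0 < k) {g : ℕ → ℂ} {b : ℕ → ℝ} {B : ℝ}
    (hb : HasSum b B) (h : ∀ j, ‖g j‖ ^ k ≤ b j) : ‖mkL p g‖ ^ k ≤ B := by
  refine hasSum_le (fun j => ?_) (hasSum_nat hp hk _) hb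
  rw [mkL_apply (mem_of_bound hp hb.summable h)]
  exact h j

lemma mkL_unif [Fact (1 ≤ p)] (hp : p.toReal = k) (hk : 0 < k) {T : Type} (S : Set T)
    (g : ℕ → T → ℂ) {b : ℕ → ℝ} (hb : Summable b) (h : ∀ z ∈ S, ∀ j, ‖g j z‖ ^ k ≤ b j) :
    TendstoUniformlyOn (fun (s : Finset ℕ) z => ∑ j ∈ s, (lp.single p j (g j z) : LP p))
      (fun z => mkL p fun j => g j z) atTop S := by
  rw [Metric.tendstoUniformlyOn_iff]
  intro ε hε
  have h1 : Tendsto (fun s : Finset ℕ => ∑' j, b j - ∑ j ∈ s, b j) atTop (𝓝 0) := by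
    have := hb.hasSum.const_sub (∑' j, b j)
    rwa [sub_self] at this
  filter_upwards [h1.eventually (gt_mem_nhds (pow_pos hε k))] with s hs z hz
  rw [dist_eq_norm]
  refine lt_of_pow_lt_pow_left₀ k hε.le (lt_of_le_of_lt ?_ hs)
  have h2 : HasSum (fun j => if j ∈ s then b j else 0) (∑ j ∈ s, b j) := by
    have := hasSum_sum_of_ne_finset_zero (f := fun j => if j ∈ s then b j else 0) (s := s)
      (L := SummationFilter.unconditional ℕ) (fun j hj => if_neg hj)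
    rwa [sum_congr rfl fun j hj => if_pos hj] at this
  refine hasSum_le (fun j => ?_) (hasSum_nat hp hk _) (hb.hasSum.sub h2)
  rw [lp.coeFn_sub, Pi.sub_apply, mkL_apply (mem_of_bound hp hb (h z hz)), lp.coeFn_sum,
    Finset.sum_apply]
  simp only [lp.single_apply, Pi.single_apply]
  rw [Finset.sum_ite_eq]
  split_ifs with hj
  · simp [hk.ne']
  · simpa using h z hz j

lemma norm_le_of_le {q : ℝ≥0∞} {l : ℕ} (hp : p.toReal = k) (hq : q.toReal = l) (hk : 0 < k)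
    (hkl : k ≤ l) (hpq : p ≤ q) (x : LP p) :
    ‖lp.linearMapOfLE ℂ (fun _ : ℕ => ℂ) hpq x‖ ≤ ‖x‖ := by
  have hp0 : p ≠ 0 := by
    rintro rfl
    have : ((k : ℕ) : ℝ) = 0 := by simpa using hp.symm
    exact hk.ne' (by exact_mod_cast this)
  refine le_of_pow_le_pow_left₀ (n := l) (by omega) (lp.norm_nonneg' _) ?_
  obtain ⟨d, rfl⟩ := Nat.exists_eq_add_of_le hkl
  rw [pow_add ‖x‖]
  refine hasSum_le (fun j => ?_) (hasSum_nat hq (by omega) _)
    ((hasSum_nat hp hk x).mul_right (‖x‖ ^ d))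
  rw [lp.coe_linearMapOfLE_apply, pow_add]
  exact mul_le_mul_of_nonneg_left
    (pow_le_pow_left₀ (norm_nonneg _) (lp.norm_apply_le_norm hp0 x j) d) (by positivity)

end seq

lemma r2 : (2 : ℝ≥0∞).toReal = (2 : ℕ) := by simp
lemma r3 : (3 : ℝ≥0∞).toReal = (3 : ℕ) := by simp
lemma r4 : (4 : ℝ≥0∞).toReal = (4 : ℕ) := by simp

/-- inclusion of `ℓ³` in `ℓ⁴` -/
noncomputable def i34 : LP 3 →L[ℂ] LP 4 :=
  (lp.linearMapOfLE ℂ (fun _ : ℕ => ℂ) (by norm_num : (3 : ℝ≥0∞) ≤ 4)).mkContinuous 1 fun x => by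
    rw [one_mul]
    exact norm_le_of_le r3 r4 (by norm_num) (by norm_num) _ x

/-- inclusion of `ℓ²` in `ℓ⁴` -/
noncomputable def i24 : LP 2 →L[ℂ] LP 4 :=
  (lp.linearMapOfLE ℂ (fun _ : ℕ => ℂ) (by norm_num : (2 : ℝ≥0∞) ≤ 4)).mkContinuous 1 fun x => by
    rw [one_mul]
    exact norm_le_of_le r2 r4 (by norm_num) (by norm_num) _ x

lemma i34_apply (x : LP 3) (j : ℕ) : i34 x j = x j := rfl
lemma i24_apply (x : LP 2) (j : ℕ) : i24 x j = x j := rfl

section umd

variable {Ω : Type} {m0 : MeasurableSpace Ω} {μ : Measure Ω} [IsProbabilityMeasure μ]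
  {ℱ : Filtration ℕ m0}

lemma burkL4 {E : Type} [NormedAddCommGroup E] [NormedSpace ℝ E] [CompleteSpace E]
    {f : ℕ → Ω → E} (hf : Martingale f ℱ μ) (hp : ∀ k, MemLp (f k) 4 μ) (L : E →L[ℝ] ℝ)
    (ε : ℕ → Bool) (n : ℕ) :
    ∫ ω, L (tr f ε n ω) ^ 4 ∂μ ≤ 290 * ∫ ω, L (f n ω - f 0 ω) ^ 4 ∂μ := by
  have hm : Martingale (fun k ω => L (f k ω)) ℱ μ := by
    refine ⟨fun i => L.continuous.comp_stronglyMeasurable (hf.stronglyMeasurable i), ?_⟩
    intro i j hij
    filter_upwards [L.comp_condExp_comm (m := ℱ i) (hf.integrable j), hf.condExp_ae_eq hij]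
      with ω e1 e2
    have : (fun ω => L (f j ω)) = L ∘ f j := rfl
    rw [this, ← e1, Function.comp_apply, e2]
  have := burk4 hm (fun k => L.comp_memLp' (hp k)) ε n
  simpa only [tr_map, map_sub] using this

omit [IsProbabilityMeasure μ] in
lemma int_4E {E : Type} [NormedAddCommGroup E] {u : Ω → E} (hu : MemLp u 4 μ) :
    Integrable (fun ω => ‖u ω‖ ^ 4) μ :=
  MemLp.integrable_norm_pow (p := 4) (f := u) (μ := μ) (by exact_mod_cast hu) (by norm_num)

lemma cplx4 (z : ℂ) : ‖z‖ ^ 4 ≤ 2 * (z.re ^ 4 + z.im ^ 4) ∧ z.re ^ 4 + z.im ^ 4 ≤ ‖z‖ ^ 4 := by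
  have e : ‖z‖ ^ 4 = (z.re ^ 2 + z.im ^ 2) ^ 2 := by
    rw [show ‖z‖ ^ 4 = (‖z‖ ^ 2) ^ 2 by ring, Complex.sq_norm, Complex.normSq_apply]
    ring
  rw [e]
  constructor
  · nlinarith [sq_nonneg (z.re ^ 2 - z.im ^ 2)]
  · nlinarith [mul_nonneg (sq_nonneg z.re) (sq_nonneg z.im)]

lemma burkC4 {E : Type} [NormedAddCommGroup E] [NormedSpace ℝ E] [CompleteSpace E]
    {f : ℕ → Ω → E} (hf : Martingale f ℱ μ) (hp : ∀ k, MemLp (f k) 4 μ) (L : E →L[ℝ] ℂ)
    (ε : ℕ → Bool) (n : ℕ) :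
    ∫ ω, ‖L (tr f ε n ω)‖ ^ 4 ∂μ ≤ 580 * ∫ ω, ‖L (f n ω - f 0 ω)‖ ^ 4 ∂μ := by
  have h1 := burkL4 hf hp (Complex.reCLM.comp L) ε n
  have h2 := burkL4 hf hp (Complex.imCLM.comp L) ε n
  have hg := tr_memLp hp ε n
  have hx : MemLp (fun ω => f n ω - f 0 ω) 4 μ := (hp n).sub (hp 0)
  have a1 := int_pow4 ((Complex.reCLM.comp L).comp_memLp' hg)
  have a2 := int_pow4 ((Complex.imCLM.comp L).comp_memLp' hg)
  have a3 := int_pow4 ((Complex.reCLM.comp L).comp_memLp' hx)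
  have a4 := int_pow4 ((Complex.imCLM.comp L).comp_memLp' hx)
  have a5 := int_4E (L.comp_memLp' hg)
  have a6 := int_4E (L.comp_memLp' hx)
  simp only [ContinuousLinearMap.comp_apply, Complex.reCLM_apply, Complex.imCLM_apply,
    Function.comp_apply] at h1 h2 a1 a2 a3 a4 a5 a6
  have b1 : ∫ ω, ‖L (tr f ε n ω)‖ ^ 4 ∂μ ≤
      ∫ ω, 2 * ((L (tr f ε n ω)).re ^ 4 + (L (tr f ε n ω)).im ^ 4) ∂μ :=
    integral_mono a5 ((a1.add a2).const_mul 2) fun ω => (cplx4 _).1
  have b2 : ∫ ω, ((L (f n ω - f 0 ω)).re ^ 4 + (L (f n ω - f 0 ω)).im ^ 4) ∂μ ≤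
      ∫ ω, ‖L (f n ω - f 0 ω)‖ ^ 4 ∂μ :=
    integral_mono (a3.add a4) a6 fun ω => (cplx4 _).2
  rw [integral_const_mul, integral_add a1 a2] at b1
  rw [integral_add a3 a4] at b2
  linarith

omit [IsProbabilityMeasure μ] in
lemma hasSum_int4 {g : Ω → LP 4} (hg : MemLp g 4 μ) :
    HasSum (fun j => ∫ ω, ‖g ω j‖ ^ 4 ∂μ) (∫ ω, ‖g ω‖ ^ 4 ∂μ) := by
  have hj : ∀ j, Integrable (fun ω => ‖g ω j‖ ^ 4) μ := fun j =>
    int_4E ((lp.evalCLM ℂ (fun _ : ℕ => ℂ) 4 j).comp_memLp' hg)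
  have hs : Summable fun j => ∫ ω, ‖‖g ω j‖ ^ 4‖ ∂μ := by
    refine summable_of_sum_le (c := ∫ ω, ‖g ω‖ ^ 4 ∂μ)
      (fun j => integral_nonneg fun ω => norm_nonneg _) fun F => ?_
    rw [← integral_finsetSum _ fun j _ => (hj j).norm]
    refine integral_mono (integrable_finsetSum _ fun j _ => (hj j).norm) (int_4E hg) fun ω => ?_
    have := sum_le_hasSum F (fun j _ => by positivity) (hasSum_nat r4 (by norm_num) (g ω))
    refine le_trans (le_of_eq ?_) this
    refine Finset.sum_congr rfl fun j _ => Real.norm_of_nonneg (by positivity)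
  have := hasSum_integral_of_summable_integral_norm hj hs
  simpa only [(hasSum_nat r4 (by norm_num) _).tsum_eq] using this

omit [IsProbabilityMeasure μ] in
lemma eLp_of_int4 {E : Type} [NormedAddCommGroup E] {g x : Ω → E} (hg : MemLp g 4 μ)
    (hx : MemLp x 4 μ) (h : ∫ ω, ‖g ω‖ ^ 4 ∂μ ≤ 580 * ∫ ω, ‖x ω‖ ^ 4 ∂μ) :
    eLpNorm g 4 μ ≤ (580 : ℝ≥0) * eLpNorm x 4 μ := by
  rw [hg.eLpNorm_eq_integral_rpow_norm (by norm_num) (by norm_num),
    hx.eLpNorm_eq_integral_rpow_norm (by norm_num) (by norm_num), r4]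
  simp only [Real.rpow_natCast]
  have h0 : 0 ≤ ∫ ω, ‖x ω‖ ^ 4 ∂μ := integral_nonneg fun ω => by positivity
  have h1 : 0 ≤ ∫ ω, ‖g ω‖ ^ 4 ∂μ := integral_nonneg fun ω => by positivity
  rw [show ((580 : ℝ≥0) : ℝ≥0∞) = ENNReal.ofReal 580 by simp,
    ← ENNReal.ofReal_mul (by norm_num)]
  apply ENNReal.ofReal_le_ofReal
  refine (Real.rpow_le_rpow h1 h (by norm_num)).trans ?_
  rw [Real.mul_rpow (by norm_num) h0]
  refine mul_le_mul_of_nonneg_right ?_ (by positivity)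
  calc (580 : ℝ) ^ (((4 : ℕ) : ℝ))⁻¹ ≤ 580 ^ (1 : ℝ) :=
        Real.rpow_le_rpow_of_exponent_le (by norm_num) (by norm_num)
    _ = 580 := Real.rpow_one _

end umd

lemma umd_four : IsUMD (LP 4) := by
  refine ⟨4, by norm_num, by norm_num, 580, ?_⟩
  intro Ω m0 μ hμ ℱ f hf hp ε n
  have e : (fun ω => ∑ k ∈ Finset.range n, (f (k + 1) ω - f k ω)) = fun ω => f n ω - f 0 ω := by
    funext ω; exact Finset.sum_range_sub (fun k => f k ω) n
  rw [e]
  have hx : MemLp (fun ω => f n ω - f 0 ω) 4 μ := (hp n).sub (hp 0)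
  refine eLp_of_int4 (tr_memLp hp ε n) hx ?_
  refine hasSum_le (fun j => ?_) (hasSum_int4 (tr_memLp hp ε n)) ((hasSum_int4 hx).mul_left 580)
  exact @burkC4 Ω m0 μ hμ ℱ (LP 4) _ NormedSpace.complexToReal _ f hf hp
    (@ContinuousLinearMap.restrictScalars ℂ (LP 4) ℂ ℝ _ _ _ _ NormedSpace.complexToReal.toModule
      _ _ _ _ _ _ (lp.evalCLM ℂ (fun _ : ℕ => ℂ) 4 j)) ε n

/-- coordinates of the extremal function on the strip -/
noncomputable def ext3 (x : LP 3) (j : ℕ) (z : ℂ) : ℂ :=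
  x j * Complex.exp ((Real.log (‖x j‖ / ‖x‖) : ℝ) * ((3 * z - 1) / 4))

lemma norm_ext3 (x : LP 3) (j : ℕ) (z : ℂ) :
    ‖ext3 x j z‖ = ‖x j‖ * Real.exp (Real.log (‖x j‖ / ‖x‖) * ((3 * z.re - 1) / 4)) := by
  rw [ext3, norm_mul, Complex.norm_exp, Complex.re_ofReal_mul]
  simp

lemma ext3_four (x : LP 3) (j : ℕ) {z : ℂ} (hz : 0 ≤ z.re) :
    ‖ext3 x j z‖ ^ 4 ≤ ‖x j‖ ^ 3 * ‖x‖ := by
  rw [norm_ext3]
  rcases (norm_nonneg (x j)).eq_or_lt with h | h
  · simp [← h]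
  have h1 : ‖x j‖ ≤ ‖x‖ := lp.norm_apply_le_norm (by norm_num) x j
  have h2 : 0 < ‖x‖ := h.trans_le h1
  have h3 : Real.log (‖x j‖ / ‖x‖) ≤ 0 :=
    Real.log_nonpos (by positivity) ((div_le_one h2).2 h1)
  rw [mul_pow, ← Real.exp_nat_mul]
  have h4 : Real.exp ((4 : ℕ) * (Real.log (‖x j‖ / ‖x‖) * ((3 * z.re - 1) / 4))) ≤
      Real.exp (-Real.log (‖x j‖ / ‖x‖)) := by
    refine Real.exp_le_exp.2 ?_
    push_cast
    nlinarith
  rw [Real.exp_neg, Real.exp_log (by positivity)] at h4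
  refine (mul_le_mul_of_nonneg_left h4 (by positivity)).trans_eq ?_
  field_simp

lemma ext3_two (x : LP 3) (j : ℕ) {z : ℂ} (hz : z.re = 1) :
    ‖ext3 x j z‖ ^ 2 ≤ ‖x j‖ ^ 3 / ‖x‖ := by
  rw [norm_ext3]
  rcases (norm_nonneg (x j)).eq_or_lt with h | h
  · simp [← h]
  have h1 : ‖x j‖ ≤ ‖x‖ := lp.norm_apply_le_norm (by norm_num) x j
  have h2 : 0 < ‖x‖ := h.trans_le h1
  rw [mul_pow, ← Real.exp_nat_mul, hz,
    show ((2 : ℕ) : ℝ) * (Real.log (‖x j‖ / ‖x‖) * ((3 * 1 - 1) / 4)) = Real.log (‖x j‖ / ‖x‖) by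
      push_cast; ring, Real.exp_log (by positivity)]
  refine le_of_eq ?_
  field_simp

lemma ext3_diff (x : LP 3) (j : ℕ) : Differentiable ℂ (ext3 x j) := by
  unfold ext3
  fun_prop

lemma interp_up (x : LP 3) : ∃ F f₀ f₁, StripFun (ContinuousLinearMap.id ℂ (LP 4)) i24 F f₀ f₁ ∧
    F ((1 / 3 : ℝ) : ℂ) = i34 x ∧ (∀ y, ‖f₀ y‖ ≤ 1 * ‖x‖) ∧ (∀ y, ‖f₁ y‖ ≤ 1 * ‖x‖) := by
  have h3 := hasSum_nat r3 (by norm_num) x
  have b4 := h3.mul_right ‖x‖
  have b2 := h3.div_const ‖x‖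
  have u4 := mkL_unif r4 (by norm_num) {z : ℂ | 0 ≤ z.re} (ext3 x) b4.summable
    fun z hz j => ext3_four x j hz
  have hre : ∀ y : ℝ, (1 + y * Complex.I).re = 1 := fun y => by simp
  have u2 := mkL_unif r2 (by norm_num) Set.univ (fun j (y : ℝ) => ext3 x j (1 + y * Complex.I))
    b2.summable fun y _ j => ext3_two x j (hre y)
  have hd : ∀ s : Finset ℕ,
      Differentiable ℂ fun z => ∑ j ∈ s, (lp.single 4 j (ext3 x j z) : LP 4) := fun s =>
    Differentiable.fun_sum fun j _ =>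
      (lp.singleContinuousLinearMap ℂ (fun _ : ℕ => ℂ) 4 j).differentiable.comp (ext3_diff x j)
  have hc : ContinuousOn (fun z => mkL 4 fun j => ext3 x j z) {z : ℂ | 0 ≤ z.re} :=
    u4.continuousOn (Eventually.of_forall fun s => (hd s).continuous.continuousOn).frequently
  have hn : ∀ z : ℂ, 0 ≤ z.re → ‖mkL 4 fun j => ext3 x j z‖ ≤ ‖x‖ := fun z hz =>
    le_of_pow_le_pow_left₀ (n := 4) (by norm_num) (norm_nonneg _)
      ((mkL_norm r4 (by norm_num) b4 fun j => ext3_four x j hz).trans_eq (by ring))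
  refine ⟨fun z => mkL 4 fun j => ext3 x j z, fun y => mkL 4 fun j => ext3 x j (y * Complex.I),
    fun y => mkL 2 fun j => ext3 x j (1 + y * Complex.I),
    ⟨?_, hc.mono fun z hz => hz.1, ⟨‖x‖, fun z hz _ => hn z hz⟩, ?_, ?_, fun _ => rfl, ?_⟩,
    ?_, fun y => ?_, fun y => ?_⟩
  · refine (u4.mono fun z hz => hz.1.le).tendstoLocallyUniformlyOn.differentiableOn
      (Eventually.of_forall fun s => (hd s).differentiableOn) ?_
    exact (isOpen_lt continuous_const Complex.continuous_re).inter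
      (isOpen_lt Complex.continuous_re continuous_const)
  · exact hc.comp_continuous (by fun_prop) fun y => by simp
  · refine continuousOn_univ.1 (u2.continuousOn (Eventually.of_forall fun s => ?_).frequently)
    refine (continuous_finsetSum _ fun j _ => ?_).continuousOn
    exact (lp.singleContinuousLinearMap ℂ (fun _ : ℕ => ℂ) 2 j).continuous.comp
      ((ext3_diff x j).continuous.comp (by fun_prop))
  · intro y
    refine lp.ext (funext fun j => ?_)
    rw [i24_apply, mkL_apply (mem_of_bound r2 b2.summable fun j => ext3_two x j (hre y)),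
      mkL_apply (mem_of_bound r4 b4.summable fun j => ext3_four x j (by rw [hre]; norm_num))]
  · refine lp.ext (funext fun j => ?_)
    rw [i34_apply, mkL_apply (mem_of_bound r4 b4.summable fun j => ext3_four x j (by simp))]
    simp [ext3]
  · rw [one_mul]
    exact hn _ (by simp)
  · rw [one_mul]
    refine le_of_pow_le_pow_left₀ (n := 2) (by norm_num) (norm_nonneg _)
      ((mkL_norm r2 (by norm_num) b2 fun j => ext3_two x j (hre y)).trans ?_)
    rcases (norm_nonneg x).eq_or_lt with h | h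
    · simp [← h]
    · refine le_of_eq ?_
      field_simp

lemma mul_exp_log {a t : ℝ} (ha : 0 ≤ a) (ht : 0 ≤ t) :
    a * Real.exp (Real.log a * t) = a ^ (1 + t) := by
  rcases ha.eq_or_lt with rfl | ha
  · rw [Real.zero_rpow (by linarith), zero_mul]
  · rw [Real.rpow_add ha, Real.rpow_one, Real.rpow_def_of_pos ha]

lemma holder_step {p : ℝ≥0∞} {k : ℕ} (hp : p.toReal = k) (hk : 0 < k) {q c : ℝ}
    (hq : Real.HolderConjugate k q) (hc : c * q = 3) (v : LP p) (a : ℕ → ℝ) (ha : ∀ j, 0 ≤ a j)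
    (s : Finset ℕ) : ∑ j ∈ s, ‖v j‖ * a j ^ c ≤ ‖v‖ * (∑ j ∈ s, a j ^ 3) ^ (1 / q) := by
  have h := Real.inner_le_Lp_mul_Lq_of_nonneg s hq (f := fun j => ‖v j‖) (g := fun j => a j ^ c)
    (fun j _ => norm_nonneg _) (fun j _ => Real.rpow_nonneg (ha j) _)
  have e : ∀ j, (a j ^ c) ^ q = a j ^ 3 := fun j => by
    rw [← Real.rpow_mul (ha j), hc]
    exact_mod_cast Real.rpow_natCast (a j) 3
  simp only [e, Real.rpow_natCast] at h
  refine h.trans (mul_le_mul_of_nonneg_right ?_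
    (Real.rpow_nonneg (sum_nonneg fun j _ => pow_nonneg (ha j) 3) _))
  have h1 := sum_le_hasSum s (fun j _ => by positivity) (hasSum_nat hp hk v)
  refine (Real.rpow_le_rpow (sum_nonneg fun j _ => by positivity) h1 (by positivity)).trans_eq ?_
  rw [one_div, Real.pow_rpow_inv_natCast (lp.norm_nonneg' v) hk.ne']

lemma interp_down (F : ℂ → LP 4) (f₀ : ℝ → LP 4) (f₁ : ℝ → LP 2) (M : ℝ)
    (hF : StripFun (ContinuousLinearMap.id ℂ (LP 4)) i24 F f₀ f₁) (b0 : ∀ y, ‖f₀ y‖ ≤ M)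
    (b1 : ∀ y, ‖f₁ y‖ ≤ M) : ∃ x : LP 3, i34 x = F ((1 / 3 : ℝ) : ℂ) ∧ ‖x‖ ≤ 1 * M := by
  obtain ⟨hd, hc, ⟨B, hB⟩, -, -, e0, e1⟩ := hF
  have hM : 0 ≤ M := (norm_nonneg _).trans (b0 0)
  set y := F ((1 / 3 : ℝ) : ℂ) with hy
  have key : ∀ s : Finset ℕ, ∑ j ∈ s, ‖y j‖ ^ 3 ≤ M ^ 3 := by
    intro s
    set S := ∑ j ∈ s, ‖y j‖ ^ 3 with hS
    have hS0 : 0 ≤ S := sum_nonneg fun j _ => by positivity
    let w : ℕ → ℂ → ℂ := fun j z =>
      (starRingEnd ℂ) (y j) * Complex.exp ((Real.log ‖y j‖ : ℝ) * ((5 - 3 * z) / 4))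
    have hw : ∀ j z, ‖w j z‖ = ‖y j‖ * Real.exp (Real.log ‖y j‖ * ((5 - 3 * z.re) / 4)) := by
      intro j z
      simp only [w]
      rw [norm_mul, Complex.norm_exp, Complex.re_ofReal_mul, Complex.norm_conj]
      simp
    have hwd : ∀ j, Differentiable ℂ (w j) := fun j => by
      simp only [w]
      fun_prop
    let G : ℂ → ℂ := fun z => ∑ j ∈ s, F z j * w j z
    have hG : ∀ z, ‖G z‖ ≤ ∑ j ∈ s, ‖F z j‖ * ‖w j z‖ := fun z =>
      (norm_sum_le _ _).trans_eq (sum_congr rfl fun j _ => norm_mul _ _)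
    have hl := Complex.HadamardThreeLines.norm_le_interp_of_mem_verticalClosedStrip₀₁' G
      (z := ((1 / 3 : ℝ) : ℂ)) (a := M * S ^ (3 / 4 : ℝ)) (b := M * S ^ (1 / 2 : ℝ))
      (by
        simp only [Complex.HadamardThreeLines.verticalClosedStrip, Set.mem_preimage,
          Complex.ofReal_re, Set.mem_Icc]
        norm_num)
      ⟨DifferentiableOn.fun_sum fun j _ =>
        ((lp.evalCLM ℂ (fun _ : ℕ => ℂ) 4 j).differentiable.comp_differentiableOn hd).mul
          (hwd j).differentiableOn, by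
        rw [Complex.HadamardThreeLines.verticalStrip, Complex.closure_preimage_re,
          closure_Ioo zero_ne_one]
        exact continuousOn_finsetSum _ fun j _ =>
          ((lp.evalCLM ℂ (fun _ : ℕ => ℂ) 4 j).continuous.comp_continuousOn hc).mul
            (hwd j).continuous.continuousOn⟩
      ⟨∑ j ∈ s, B * (‖y j‖ * Real.exp (|Real.log ‖y j‖| * 2)), by
        rintro _ ⟨z, hz, rfl⟩
        refine (hG z).trans (sum_le_sum fun j _ => ?_)
        have a1 : ‖F z j‖ ≤ B :=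
          (lp.norm_apply_le_norm (by norm_num) (F z) j).trans (hB z hz.1 hz.2)
        refine mul_le_mul a1 ?_ (norm_nonneg _) ((norm_nonneg _).trans a1)
        rw [hw]
        refine mul_le_mul_of_nonneg_left (Real.exp_le_exp.2 ?_) (norm_nonneg _)
        have z0 : 0 ≤ z.re := hz.1
        have z1 : z.re ≤ 1 := hz.2
        exact mul_le_mul (le_abs_self _) (by linarith) (by linarith) (abs_nonneg _)⟩
      (by
        intro z hz
        have z0 : z.re = 0 := hz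
        have : z = (z.im : ℂ) * Complex.I := by
          apply Complex.ext <;> simp [z0]
        refine (hG z).trans ?_
        simp only [hw, z0]
        rw [this, e0]
        have := holder_step r4 (by norm_num) (q := 4 / 3) (c := 1 + (5 - 3 * 0) / 4)
          (by rw [Real.holderConjugate_iff]; norm_num) (by norm_num) (f₀ z.im) (fun j => ‖y j‖)
          (fun j => norm_nonneg _) s
        simp only [mul_exp_log (norm_nonneg _) (show (0 : ℝ) ≤ (5 - 3 * 0) / 4 by norm_num)]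
        refine this.trans ?_
        rw [show (1 / (4 / 3) : ℝ) = 3 / 4 by norm_num]
        exact mul_le_mul_of_nonneg_right (b0 _) (by positivity))
      (by
        intro z hz
        have z0 : z.re = 1 := hz
        have : z = 1 + (z.im : ℂ) * Complex.I := by
          apply Complex.ext <;> simp [z0]
        refine (hG z).trans ?_
        simp only [hw, z0]
        rw [this, e1]
        have := holder_step r2 (by norm_num) (q := 2) (c := 1 + (5 - 3 * 1) / 4)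
          (by rw [Real.holderConjugate_iff]; norm_num) (by norm_num) (f₁ z.im) (fun j => ‖y j‖)
          (fun j => norm_nonneg _) s
        simp only [mul_exp_log (norm_nonneg _) (show (0 : ℝ) ≤ (5 - 3 * 1) / 4 by norm_num)]
        refine this.trans ?_
        exact mul_le_mul_of_nonneg_right (b1 _) (by positivity))
    have hv : G ((1 / 3 : ℝ) : ℂ) = (S : ℂ) := by
      simp only [G, hS, ← hy]
      push_cast
      refine sum_congr rfl fun j _ => ?_
      simp only [w]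
      rcases eq_or_ne (y j) 0 with h | h
      · simp [h]
      · rw [← mul_assoc, Complex.mul_conj', show ((5 - 3 * (1 / 3)) / 4 : ℂ) = 1 by norm_num,
          mul_one, ← Complex.ofReal_exp, Real.exp_log (norm_pos_iff.2 h)]
        ring
    rw [hv, Complex.norm_real, Real.norm_of_nonneg hS0, Complex.ofReal_re,
      Real.mul_rpow hM (by positivity), Real.mul_rpow hM (by positivity), ← Real.rpow_mul hS0,
      ← Real.rpow_mul hS0, mul_mul_mul_comm, ← Real.rpow_add' hM (by norm_num),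
      ← Real.rpow_add' hS0 (by norm_num)] at hl
    norm_num at hl
    rcases hS0.eq_or_lt with h | h
    · rw [← h]
      positivity
    · have h1 := pow_le_pow_left₀ hS0 hl 3
      rw [mul_pow, ← Real.rpow_natCast (S ^ (2 / 3 : ℝ)), ← Real.rpow_mul hS0] at h1
      norm_num at h1
      have h2 : S ^ 2 * S ≤ S ^ 2 * M ^ 3 := by nlinarith
      exact le_of_mul_le_mul_left h2 (by positivity)
  have hm : Memℓp (fun j => y j) 3 := by
    refine memℓp_gen' (C := M ^ 3) fun s => ?_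
    simpa only [r3, Real.rpow_natCast] using key s
  refine ⟨⟨fun j => y j, hm⟩, lp.ext rfl, ?_⟩
  rw [one_mul]
  refine lp.norm_le_of_forall_sum_le (by norm_num) hM fun s => ?_
  simpa only [r3, Real.rpow_natCast] using key s

lemma interp_three : IsIntermediateUMD (1 / 3) (LP 3) :=
  ⟨LP 4, inferInstance, inferInstance, inferInstance, LP 2, inferInstance, inferInstance,
    inferInstance, LP 4, inferInstance, inferInstance, inferInstance, i34,
    ContinuousLinearMap.id ℂ _, i24, umd_four,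
    fun a b h => lp.ext (funext fun j => congrFun (congrArg (fun v : LP 4 => (v : ℕ → ℂ)) h) j),
    fun _ _ h => h,
    fun a b h => lp.ext (funext fun j => congrFun (congrArg (fun v : LP 4 => (v : ℕ → ℂ)) h) j),
    fun w => ⟨w, 0, by simp⟩, 1, interp_up,
    fun F f₀ f₁ M hF b0 b1 => interp_down F f₀ f₁ M hF b0 b1⟩

end Pool.Agent.Lib.MP_e4fca8_an
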