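import Pool.Agent.Lib.MP_e4fca8_an.Defs

-- part Pool.Agent.Lib.MP_e4fca8_an.Rad
section

open MeasureTheory Finset
open scoped ENNReal NNReal

namespace Pool.Agent.Lib.MP_e4fca8_an

def sg {X : Type} [AddCommGroup X] {n : ℕ} (ε : Fin n → Bool) (x : Fin n → X) : X :=
  ∑ i, (if ε i then x i else -x i)

lemma sum_signs_succ {X : Type} [AddCommGroup X] {n : ℕ} (φ : X → ℝ) (x : Fin (n + 1) → X) :
    ∑ ε : Fin (n + 1) → Bool, φ (sg ε x) =
      ∑ ε : Fin n → Bool, (φ (x 0 + sg ε (fun i => x i.succ)) +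
        φ (-x 0 + sg ε (fun i => x i.succ))) := by
  rw [← (Fin.consEquiv (fun _ : Fin (n + 1) => Bool)).sum_comp, Fintype.sum_prod_type,
    Fintype.sum_bool, ← Finset.sum_add_distrib]
  refine Finset.sum_congr rfl fun ε _ => ?_
  simp [sg, Fin.sum_univ_succ, Fin.consEquiv]

lemma second_moment {n : ℕ} (a : Fin n → ℂ) :
    ∑ ε : Fin n → Bool, ‖sg ε a‖ ^ 2 = 2 ^ n * ∑ i, ‖a i‖ ^ 2 := by
  induction n with
  | zero => simp [sg]
  | succ n ih =>
    rw [sum_signs_succ (fun z => ‖z‖ ^ 2) a]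
    have h : ∀ u z : ℂ, ‖u + z‖ ^ 2 + ‖-u + z‖ ^ 2 = 2 * ‖u‖ ^ 2 + 2 * ‖z‖ ^ 2 := by
      intro u z
      simp only [Complex.sq_norm, Complex.normSq_apply, Complex.add_re, Complex.add_im,
        Complex.neg_re, Complex.neg_im]
      ring
    simp only [h]
    rw [Finset.sum_add_distrib, ← Finset.mul_sum, ← Finset.mul_sum, ih, Fin.sum_univ_succ]
    simp
    ring

lemma fourth_moment {n : ℕ} (a : Fin n → ℂ) :
    ∑ ε : Fin n → Bool, ‖sg ε a‖ ^ 4 ≤ 3 * 2 ^ n * (∑ i, ‖a i‖ ^ 2) ^ 2 := by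
  induction n with
  | zero => simp [sg]
  | succ n ih =>
    rw [sum_signs_succ (fun z => ‖z‖ ^ 4) a]
    have h : ∀ u z : ℂ, ‖u + z‖ ^ 4 + ‖-u + z‖ ^ 4 ≤
        2 * ‖z‖ ^ 4 + 12 * ‖u‖ ^ 2 * ‖z‖ ^ 2 + 2 * (‖u‖ ^ 2) ^ 2 := by
      intro u z
      have e : ∀ w : ℂ, ‖w‖ ^ 4 = (‖w‖ ^ 2) ^ 2 := fun w => by ring
      simp only [e, Complex.sq_norm, Complex.normSq_apply, Complex.add_re, Complex.add_im,
        Complex.neg_re, Complex.neg_im]
      nlinarith [sq_nonneg (u.re * z.im - u.im * z.re)]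
    refine (Finset.sum_le_sum fun ε _ => h _ _).trans ?_
    rw [Finset.sum_add_distrib, Finset.sum_add_distrib, ← Finset.mul_sum, ← Finset.mul_sum,
      second_moment, Fin.sum_univ_succ]
    have ih' := ih (fun i => a i.succ)
    simp only [Finset.sum_const, Finset.card_univ, Fintype.card_fun, Fintype.card_bool,
      Fintype.card_fin, nsmul_eq_mul, Nat.cast_pow, Nat.cast_ofNat]
    have h2 : (0 : ℝ) < 2 ^ n := by positivity
    have h3 : 0 ≤ (‖a 0‖ ^ 2) ^ 2 := by positivity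
    rw [pow_succ (2 : ℝ) n]
    nlinarith [mul_nonneg h2.le h3]

lemma radAvg_eq {X : Type} [NormedAddCommGroup X] {n : ℕ} (x : Fin n → X) :
    radAvg x = (∑ ε : Fin n → Bool, ‖sg ε x‖) / 2 ^ n := rfl

lemma radAvg_nonneg {X : Type} [NormedAddCommGroup X] {n : ℕ} (x : Fin n → X) :
    0 ≤ radAvg x := by
  rw [radAvg_eq]; positivity

/-- Khintchine lower bound. -/
lemma khintchine {n : ℕ} (a : Fin n → ℂ) : √(∑ i, ‖a i‖ ^ 2) ≤ 2 * radAvg a := by
  set σ := √(∑ i, ‖a i‖ ^ 2) with hσ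
  have hσ0 : 0 ≤ σ := Real.sqrt_nonneg _
  have hσ2 : σ ^ 2 = ∑ i, ‖a i‖ ^ 2 := Real.sq_sqrt (by positivity)
  rcases hσ0.eq_or_lt with h0 | hpos
  · rw [← h0]; have := radAvg_nonneg a; linarith
  have key : ∀ u : ℝ, 0 ≤ u → 12 * σ ^ 2 * u ^ 2 - u ^ 4 ≤ 16 * σ ^ 3 * u := by
    intro u hu
    have : 0 ≤ u * ((u - 2 * σ) ^ 2 * (u + 4 * σ)) := by positivity
    nlinarith
  have h1 : ∑ ε : Fin n → Bool, (12 * σ ^ 2 * ‖sg ε a‖ ^ 2 - ‖sg ε a‖ ^ 4)
      ≤ ∑ ε : Fin n → Bool, 16 * σ ^ 3 * ‖sg ε a‖ :=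
    Finset.sum_le_sum fun ε _ => key _ (norm_nonneg _)
  rw [Finset.sum_sub_distrib, ← Finset.mul_sum, ← Finset.mul_sum, second_moment, ← hσ2] at h1
  have h4 := fourth_moment a
  rw [← hσ2] at h4
  have h2 : (0 : ℝ) < 2 ^ n := by positivity
  rw [radAvg_eq]
  set A := ∑ ε : Fin n → Bool, ‖sg ε a‖
  have hA : 0 ≤ A := by positivity
  have h5 : σ ^ 3 * (9 * 2 ^ n * σ) ≤ σ ^ 3 * (16 * A) := by nlinarith
  have h6 : 9 * 2 ^ n * σ ≤ 16 * A := le_of_mul_le_mul_left h5 (by positivity)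
  rw [← mul_div_assoc, le_div_iff₀ h2]
  nlinarith

lemma cotype_two : HasCotype ℂ 2 := by
  refine ⟨2, fun n x => ?_⟩
  have := khintchine x
  rw [Real.sqrt_eq_rpow] at this
  simpa using this

/-- mean versus power mean over signs -/
lemma avg_le_rpow {n : ℕ} (z : (Fin n → Bool) → ℝ) (hz : ∀ ε, 0 ≤ z ε) {p : ℝ} (hp : 1 ≤ p) :
    (∑ ε, z ε) / 2 ^ n ≤ ((∑ ε, z ε ^ p) / 2 ^ n) ^ (1 / p) := by
  have h := Real.arith_mean_le_rpow_mean Finset.univ (fun _ : Fin n → Bool => (1 : ℝ) / 2 ^ n) z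
    (fun _ _ => by positivity) (by simp) (fun i _ => hz i) hp
  rw [← Finset.mul_sum, ← Finset.mul_sum] at h
  simpa [div_eq_inv_mul] using h

lemma sum_sq_rpow_le {ι : Type} (s : Finset ι) (a : ι → ℝ) (ha : ∀ i, 0 ≤ a i) {r : ℝ}
    (h0 : 0 < r) (h1 : r ≤ 1) : (∑ i ∈ s, a i) ^ r ≤ ∑ i ∈ s, a i ^ r := by
  classical
  induction s using Finset.induction_on with
  | empty => simp [h0.ne']
  | insert i s hi ih =>
    rw [Finset.sum_insert hi, Finset.sum_insert hi]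
    refine (Real.rpow_add_le_add_rpow (ha i) (Finset.sum_nonneg fun j _ => ha j) h0.le h1).trans ?_
    linarith

lemma scalar_type {n : ℕ} (a : Fin n → ℂ) :
    ∑ ε : Fin n → Bool, ‖sg ε a‖ ^ (4 / 3 : ℝ) ≤ 2 ^ n * ∑ i, ‖a i‖ ^ (4 / 3 : ℝ) := by
  have h := avg_le_rpow (fun ε : Fin n → Bool => ‖sg ε a‖ ^ (4 / 3 : ℝ))
    (fun ε => by positivity) (p := 3 / 2) (by norm_num)
  have e : ∀ ε : Fin n → Bool, (‖sg ε a‖ ^ (4 / 3 : ℝ)) ^ (3 / 2 : ℝ) = ‖sg ε a‖ ^ 2 := by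
    intro ε
    rw [← Real.rpow_mul (norm_nonneg _)]
    norm_num
  simp only [e] at h
  have h2 : (0 : ℝ) < 2 ^ n := by positivity
  rw [second_moment, mul_div_cancel_left₀ _ h2.ne', div_le_iff₀ h2] at h
  have h3 := sum_sq_rpow_le Finset.univ (fun i => ‖a i‖ ^ 2) (fun i => by positivity)
    (r := 1 / (3 / 2)) (by norm_num) (by norm_num)
  have e2 : ∀ i, (‖a i‖ ^ 2) ^ (1 / (3 / 2) : ℝ) = ‖a i‖ ^ (4 / 3 : ℝ) := by
    intro i
    rw [← Real.rpow_natCast, ← Real.rpow_mul (norm_nonneg _)]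
    norm_num
  simp only [e2] at h3
  nlinarith

noncomputable abbrev P : ℝ≥0∞ := 4 / 3

lemma P_toReal : P.toReal = 4 / 3 := by
  simp [P, ENNReal.toReal_div]

lemma one_lt_P : 1 < P := by
  unfold P
  rw [ENNReal.lt_div_iff_mul_lt (by simp) (by simp)]
  norm_num

lemma P_ne_top : P ≠ ∞ := by
  unfold P
  exact ENNReal.div_ne_top (by simp) (by simp)

instance factP : Fact (1 ≤ P) := ⟨one_lt_P.le⟩

abbrev Y : Type := lp (fun _ : ℕ => ℂ) P

lemma hasSum_Y (y : Y) : HasSum (fun j => ‖y j‖ ^ (4 / 3 : ℝ)) (‖y‖ ^ (4 / 3 : ℝ)) := by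
  have := lp.hasSum_norm (p := P) (by rw [P_toReal]; norm_num) y
  rwa [P_toReal] at this

lemma sg_apply {n : ℕ} (ε : Fin n → Bool) (x : Fin n → Y) (j : ℕ) :
    (sg ε x) j = sg ε (fun i => x i j) := by
  unfold sg
  rw [lp.coeFn_sum, Finset.sum_apply]
  refine Finset.sum_congr rfl fun i _ => ?_
  split_ifs <;> simp

lemma type_Y : HasType Y (4 / 3) := by
  refine ⟨1, fun n x => ?_⟩
  rw [one_mul, radAvg_eq]
  refine (avg_le_rpow (fun ε => ‖sg ε x‖) (fun _ => norm_nonneg _) (p := 4 / 3)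
    (by norm_num)).trans ?_
  have h2 : (0 : ℝ) < 2 ^ n := by positivity
  refine Real.rpow_le_rpow (by positivity) ?_ (by norm_num)
  rw [div_le_iff₀ h2, mul_comm]
  have s1 : HasSum (fun j => ∑ ε : Fin n → Bool, ‖(sg ε x) j‖ ^ (4 / 3 : ℝ))
      (∑ ε : Fin n → Bool, ‖sg ε x‖ ^ (4 / 3 : ℝ)) :=
    hasSum_sum fun ε _ => hasSum_Y _
  have s2 : HasSum (fun j => 2 ^ n * ∑ i, ‖x i j‖ ^ (4 / 3 : ℝ))
      (2 ^ n * ∑ i, ‖x i‖ ^ (4 / 3 : ℝ)) :=
    (hasSum_sum fun i _ => hasSum_Y _).mul_left _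
  refine hasSum_le (fun j => ?_) s1 s2
  simp only [sg_apply]
  exact scalar_type _

/-- The key estimate behind `R`-boundedness. -/
lemma rbound_aux (δ : ℕ → ℝ) (hδ : ∀ j, 0 < δ j) (D : ℝ)
    (hD : ∀ F : Finset ℕ, ∑ j ∈ F, δ j ^ 4 ≤ D ^ 4) (hD0 : 0 ≤ D)
    {n : ℕ} (j : Fin n → ℕ) (c x : Fin n → ℂ) (hc : ∀ i, ‖c i‖ ≤ δ (j i)) :
    radAvg (fun i => (lp.single P (j i) (c i * x i) : Y)) ≤ 2 * D * radAvg x := by
  classical
  set F := Finset.univ.image j with hF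
  set b : ℕ → Fin n → ℂ := fun k i => if j i = k then c i * x i else 0 with hb
  have hS : ∀ ε : Fin n → Bool, sg ε (fun i => (lp.single P (j i) (c i * x i) : Y))
      = ∑ k ∈ F, (lp.single P k (sg ε (b k)) : Y) := by
    intro ε
    apply lp.ext
    funext l
    rw [sg_apply, lp.coeFn_sum, Finset.sum_apply]
    simp only [lp.single_apply, Pi.single_apply]
    rw [Finset.sum_ite_eq]
    split_ifs with hl
    · unfold sg
      refine Finset.sum_congr rfl fun i _ => ?_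
      simp only [hb, eq_comm]
    · unfold sg
      refine Finset.sum_eq_zero fun i _ => ?_
      have : l ≠ j i := by
        rintro rfl
        exact hl (Finset.mem_image_of_mem _ (Finset.mem_univ _))
      simp [this]
  set Q : (Fin n → Bool) → ℝ := fun ε => ∑ k ∈ F, ‖sg ε (b k)‖ ^ 2 / δ k ^ 2 with hQ
  have hQ0 : ∀ ε, 0 ≤ Q ε := fun ε => Finset.sum_nonneg fun k _ => by positivity
  have hpt : ∀ ε : Fin n → Bool,
      ‖sg ε (fun i => (lp.single P (j i) (c i * x i) : Y))‖ ≤ D * √(Q ε) := by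
    intro ε
    rw [hS]
    have h1 := lp.norm_sum_single (E := fun _ : ℕ => ℂ) (p := P) (by rw [P_toReal]; norm_num)
      (fun k => sg ε (b k)) F
    rw [P_toReal] at h1
    have hH := Real.inner_le_Lp_mul_Lq_of_nonneg F (p := 3) (q := 3 / 2)
      (by rw [Real.holderConjugate_iff]; norm_num)
      (f := fun k => δ k ^ (4 / 3 : ℝ)) (g := fun k => (‖sg ε (b k)‖ / δ k) ^ (4 / 3 : ℝ))
      (fun k _ => by have := hδ k; positivity) (fun k _ => by have := hδ k; positivity)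
    have e1 : ∀ k, δ k ^ (4 / 3 : ℝ) * (‖sg ε (b k)‖ / δ k) ^ (4 / 3 : ℝ)
        = ‖sg ε (b k)‖ ^ (4 / 3 : ℝ) := by
      intro k
      have := hδ k
      rw [← Real.mul_rpow this.le (by positivity), mul_div_cancel₀ _ this.ne']
    have e2 : ∀ k, (δ k ^ (4 / 3 : ℝ)) ^ (3 : ℝ) = δ k ^ 4 := by
      intro k
      rw [← Real.rpow_mul (hδ k).le, ← Real.rpow_natCast]
      norm_num
    have e3 : ∀ k, ((‖sg ε (b k)‖ / δ k) ^ (4 / 3 : ℝ)) ^ (3 / 2 : ℝ)
        = ‖sg ε (b k)‖ ^ 2 / δ k ^ 2 := by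
      intro k
      have := hδ k
      rw [← Real.rpow_mul (by positivity), ← div_pow, ← Real.rpow_natCast]
      norm_num
    simp only [e1, e2, e3] at hH
    rw [← h1] at hH
    have h2 : (∑ k ∈ F, δ k ^ 4) ^ (1 / 3 : ℝ) ≤ D ^ (4 / 3 : ℝ) := by
      refine (Real.rpow_le_rpow (Finset.sum_nonneg fun k _ => by have := hδ k; positivity)
        (hD F) (by norm_num)).trans_eq ?_
      rw [← Real.rpow_natCast, ← Real.rpow_mul hD0]
      norm_num
    have h3 : (Q ε) ^ (1 / (3 / 2) : ℝ) = (√(Q ε)) ^ (4 / 3 : ℝ) := by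
      rw [Real.sqrt_eq_rpow, ← Real.rpow_mul (hQ0 ε)]
      norm_num
    have h4 : ‖∑ k ∈ F, (lp.single P k (sg ε (b k)) : Y)‖ ^ (4 / 3 : ℝ)
        ≤ (D * √(Q ε)) ^ (4 / 3 : ℝ) := by
      rw [Real.mul_rpow hD0 (Real.sqrt_nonneg _), ← h3]
      refine hH.trans ?_
      exact mul_le_mul_of_nonneg_right h2 (Real.rpow_nonneg (hQ0 ε) _)
    exact (Real.rpow_le_rpow_iff (norm_nonneg _) (by positivity) (by norm_num)).mp h4
  have h2 : (0 : ℝ) < 2 ^ n := by positivity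
  have hsumQ : ∑ ε, Q ε ≤ 2 ^ n * ∑ i, ‖x i‖ ^ 2 := by
    simp only [hQ]
    rw [Finset.sum_comm]
    simp only [← Finset.sum_div, second_moment]
    have e : ∀ k, 2 ^ n * (∑ i, ‖b k i‖ ^ 2) / δ k ^ 2
        = 2 ^ n * ∑ i, (if j i = k then ‖c i * x i‖ ^ 2 / δ (j i) ^ 2 else 0) := by
      intro k
      rw [mul_div_assoc, Finset.sum_div]
      congr 1
      refine Finset.sum_congr rfl fun i _ => ?_
      simp only [hb]
      split_ifs with h
      · rw [h]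
      · simp
    simp only [e]
    rw [← Finset.mul_sum, Finset.sum_comm]
    refine mul_le_mul_of_nonneg_left (Finset.sum_le_sum fun i _ => ?_) h2.le
    rw [Finset.sum_ite_eq, if_pos (Finset.mem_image_of_mem _ (Finset.mem_univ _))]
    have := hδ (j i)
    rw [div_le_iff₀ (by positivity), norm_mul, mul_pow, mul_comm]
    exact mul_le_mul_of_nonneg_left (pow_le_pow_left₀ (norm_nonneg _) (hc i) 2) (by positivity)
  have havg := avg_le_rpow (fun ε => √(Q ε)) (fun _ => Real.sqrt_nonneg _) (p := 2) (by norm_num)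
  have e4 : ∀ ε, (√(Q ε)) ^ (2 : ℝ) = Q ε := by
    intro ε
    rw [Real.rpow_two, Real.sq_sqrt (hQ0 ε)]
  simp only [e4] at havg
  rw [← Real.sqrt_eq_rpow] at havg
  have h5 : √((∑ ε, Q ε) / 2 ^ n) ≤ √(∑ i, ‖x i‖ ^ 2) := by
    apply Real.sqrt_le_sqrt
    rw [div_le_iff₀ h2, mul_comm]
    exact hsumQ
  have h6 := khintchine x
  rw [radAvg_eq]
  calc (∑ ε, ‖sg ε (fun i => (lp.single P (j i) (c i * x i) : Y))‖) / 2 ^ n
      ≤ (∑ ε, D * √(Q ε)) / 2 ^ n := by gcongr with ε; exact hpt ε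
    _ = D * ((∑ ε, √(Q ε)) / 2 ^ n) := by rw [← Finset.mul_sum, mul_div_assoc]
    _ ≤ D * (2 * radAvg x) := mul_le_mul_of_nonneg_left (by linarith) hD0
    _ = 2 * D * radAvg x := by ring

end Pool.Agent.Lib.MP_e4fca8_an
end

-- part Pool.Agent.Lib.MP_e4fca8_an.UMD
section

open MeasureTheory Finset
open scoped ENNReal NNReal

set_option linter.unusedSectionVars false
set_option linter.unusedVariables false

namespace Pool.Agent.Lib.MP_e4fca8_an

section Real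

variable {Ω : Type} {m0 : MeasurableSpace Ω} {μ : Measure Ω} [IsProbabilityMeasure μ]
  {ℱ : Filtration ℕ m0}

/-- martingale transform by signs -/
def tr {E : Type} [AddCommGroup E] (f : ℕ → Ω → E) (ε : ℕ → Bool) (n : ℕ) (ω : Ω) : E :=
  ∑ k ∈ Finset.range n, (if ε k then f (k + 1) ω - f k ω else -(f (k + 1) ω - f k ω))

lemma tr_succ {E : Type} [AddCommGroup E] (f : ℕ → Ω → E) (ε : ℕ → Bool) (n : ℕ) (ω : Ω) :
    tr f ε (n + 1) ω = tr f ε n ω +
      (if ε n then f (n + 1) ω - f n ω else -(f (n + 1) ω - f n ω)) := by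
  simp [tr, Finset.sum_range_succ]

lemma tr_memLp {E : Type} [NormedAddCommGroup E] {f : ℕ → Ω → E} {p : ℝ≥0∞}
    (hp : ∀ k, MemLp (f k) p μ) (ε : ℕ → Bool) (n : ℕ) : MemLp (tr f ε n) p μ := by
  induction n with
  | zero =>
    have : tr f ε 0 = fun _ => 0 := by funext ω; simp [tr]
    rw [this]; exact MemLp.zero
  | succ n ih =>
    have : tr f ε (n + 1) = tr f ε n + (if ε n then f (n + 1) - f n else -(f (n + 1) - f n)) := by
      funext ω; rw [tr_succ]; split_ifs <;> simp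
    rw [this]
    refine ih.add ?_
    split_ifs
    · exact (hp _).sub (hp _)
    · exact ((hp _).sub (hp _)).neg

lemma tr_meas {f : ℕ → Ω → ℝ} (hf : Martingale f ℱ μ) (ε : ℕ → Bool) (n : ℕ) :
    StronglyMeasurable[ℱ n] (tr f ε n) := by
  induction n with
  | zero =>
    have : tr f ε 0 = fun _ => 0 := by funext ω; simp [tr]
    rw [this]; exact stronglyMeasurable_const
  | succ n ih =>
    have : tr f ε (n + 1) = tr f ε n + (if ε n then f (n + 1) - f n else -(f (n + 1) - f n)) := by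
      funext ω; rw [tr_succ]; split_ifs <;> simp
    rw [this]
    have h1 : StronglyMeasurable[ℱ (n + 1)] (f (n + 1) - f n) :=
      (hf.stronglyMeasurable _).sub ((hf.stronglyMeasurable n).mono (ℱ.mono (Nat.le_succ n)))
    refine (ih.mono (ℱ.mono (Nat.le_succ n))).add ?_
    split_ifs
    · exact h1
    · exact h1.neg

lemma pull {g h : Ω → ℝ} {i : ℕ} (hg : StronglyMeasurable[ℱ i] g) (hh : Integrable h μ)
    (hgh : Integrable (fun ω => g ω * h ω) μ) :
    ∫ ω, g ω * h ω ∂μ = ∫ ω, g ω * (μ[h | ℱ i]) ω ∂μ := by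
  have h1 := condExp_mul_of_stronglyMeasurable_left (μ := μ) hg hgh hh
  rw [← integral_condExp (ℱ.le i) (f := fun ω => g ω * h ω)]
  exact integral_congr_ae h1

lemma orth {f : ℕ → Ω → ℝ} (hf : Martingale f ℱ μ) {g : Ω → ℝ} {i j : ℕ} (hij : i ≤ j)
    (hg : StronglyMeasurable[ℱ i] g)
    (hgh : Integrable (fun ω => g ω * (f j ω - f i ω)) μ) :
    ∫ ω, g ω * (f j ω - f i ω) ∂μ = 0 := by
  have hint : Integrable (f j - f i) μ := (hf.integrable j).sub (hf.integrable i)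
  have h1 := pull (h := f j - f i) hg hint hgh
  have h2 : μ[f j - f i | ℱ i] =ᵐ[μ] 0 := by
    filter_upwards [condExp_sub (hf.integrable j) (hf.integrable i) (ℱ i),
      hf.condExp_ae_eq hij, hf.condExp_ae_eq (le_refl i)] with ω e1 e2 e3
    rw [e1, Pi.sub_apply, e2, e3]; simp
  refine h1.trans ?_
  rw [← integral_zero Ω ℝ (μ := μ)]
  refine integral_congr_ae ?_
  filter_upwards [h2] with ω e
  rw [e]; simp

lemma int_pow4 {a : Ω → ℝ} (ha : MemLp a 4 μ) : Integrable (fun ω => a ω ^ 4) μ := by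
  have := MemLp.integrable_norm_pow (p := 4) (f := a) (μ := μ) (by exact_mod_cast ha) (by norm_num)
  refine this.congr (Filter.Eventually.of_forall fun ω => ?_)
  simp only [Real.norm_eq_abs]
  exact Even.pow_abs (by decide) _

lemma int4 {a b c d : Ω → ℝ} (ha : MemLp a 4 μ) (hb : MemLp b 4 μ) (hc : MemLp c 4 μ)
    (hd : MemLp d 4 μ) : Integrable (fun ω => a ω * b ω * c ω * d ω) μ := by
  refine Integrable.mono' (g := fun ω => a ω ^ 4 + b ω ^ 4 + c ω ^ 4 + d ω ^ 4)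
    ((((int_pow4 ha).add (int_pow4 hb)).add (int_pow4 hc)).add (int_pow4 hd))
    (((ha.1.mul hb.1).mul hc.1).mul hd.1) (Filter.Eventually.of_forall fun ω => ?_)
  rw [Real.norm_eq_abs, abs_le]
  constructor <;>
    nlinarith [sq_nonneg (a ω * b ω - c ω * d ω), sq_nonneg (a ω * b ω + c ω * d ω),
      sq_nonneg (a ω ^ 2 - b ω ^ 2), sq_nonneg (c ω ^ 2 - d ω ^ 2), sq_nonneg (a ω ^ 2),
      sq_nonneg (b ω ^ 2), sq_nonneg (c ω ^ 2), sq_nonneg (d ω ^ 2)]

def W (x y : ℝ) : ℝ := y ^ 4 - 16 * x ^ 2 * y ^ 2 - 17 * x ^ 4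

lemma W_plus (x y d : ℝ) : W (x + d) (y + d) ≤ W x y +
    (-32 * x * y ^ 2 - 68 * x ^ 3 + (4 * y ^ 3 - 32 * x ^ 2 * y)) * d := by
  have hQ : 0 ≤ 10 * y ^ 2 + 64 * x * y + 118 * x ^ 2 + 28 * y * d + 100 * x * d + 32 * d ^ 2 := by
    nlinarith [sq_nonneg (5 * y + 16 * x + 7 * d), sq_nonneg (3 * x + d), sq_nonneg d]
  have := mul_nonneg (sq_nonneg d) hQ
  unfold W
  nlinarith

lemma W_minus (x y d : ℝ) : W (x + d) (y + -d) ≤ W x y +
    (-32 * x * y ^ 2 - 68 * x ^ 3 - (4 * y ^ 3 - 32 * x ^ 2 * y)) * d := by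
  have h := W_plus x (-y) d
  unfold W at h ⊢
  nlinarith

lemma int_W {x y : Ω → ℝ} (hx : MemLp x 4 μ) (hy : MemLp y 4 μ) :
    Integrable (fun ω => W (x ω) (y ω)) μ := by
  have := ((int_pow4 hy).sub ((int4 hx hx hy hy).const_mul 16)).sub ((int_pow4 hx).const_mul 17)
  refine this.congr (Filter.Eventually.of_forall fun ω => ?_)
  simp only [W, Pi.sub_apply]
  ring

lemma burk_W {f : ℕ → Ω → ℝ} (hf : Martingale f ℱ μ) (hp : ∀ k, MemLp (f k) 4 μ)
    (ε : ℕ → Bool) (n : ℕ) : ∫ ω, W (f n ω - f 0 ω) (tr f ε n ω) ∂μ ≤ 0 := by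
  induction n with
  | zero => simp [W, tr]
  | succ n ih =>
    refine le_trans ?_ ih
    set x : Ω → ℝ := fun ω => f n ω - f 0 ω with hx
    set y : Ω → ℝ := tr f ε n with hy
    set d : Ω → ℝ := fun ω => f (n + 1) ω - f n ω with hd
    have hx4 : MemLp x 4 μ := (hp n).sub (hp 0)
    have hy4 : MemLp y 4 μ := tr_memLp hp ε n
    have hd4 : MemLp d 4 μ := (hp _).sub (hp n)
    have hxm : StronglyMeasurable[ℱ n] x :=
      (hf.stronglyMeasurable n).sub ((hf.stronglyMeasurable 0).mono (ℱ.mono (Nat.zero_le n)))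
    have hym : StronglyMeasurable[ℱ n] y := tr_meas hf ε n
    set s : ℝ := if ε n then 1 else -1 with hs
    set G : Ω → ℝ := fun ω =>
      -32 * x ω * y ω ^ 2 - 68 * x ω ^ 3 + s * (4 * y ω ^ 3 - 32 * x ω ^ 2 * y ω) with hG
    have hGm : StronglyMeasurable[ℱ n] G := by
      have hc : Continuous (fun q : ℝ × ℝ => -32 * q.1 * q.2 ^ 2 - 68 * q.1 ^ 3 +
          s * (4 * q.2 ^ 3 - 32 * q.1 ^ 2 * q.2)) := by fun_prop
      exact hc.comp_stronglyMeasurable (hxm.prodMk hym)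
    have hGd : Integrable (fun ω => G ω * d ω) μ := by
      have := ((((int4 hx4 hy4 hy4 hd4).const_mul (-32)).sub
        ((int4 hx4 hx4 hx4 hd4).const_mul 68)).add
        ((int4 hy4 hy4 hy4 hd4).const_mul (4 * s))).sub ((int4 hx4 hx4 hy4 hd4).const_mul (32 * s))
      refine this.congr (Filter.Eventually.of_forall fun ω => ?_)
      simp only [hG, Pi.sub_apply, Pi.add_apply]
      ring
    have h0 : ∫ ω, G ω * d ω ∂μ = 0 := orth hf (Nat.le_succ n) hGm hGd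
    have h1 : ∫ ω, W (f (n + 1) ω - f 0 ω) (tr f ε (n + 1) ω) ∂μ
        ≤ ∫ ω, (W (x ω) (y ω) + G ω * d ω) ∂μ := by
      refine integral_mono (int_W ((hp _).sub (hp 0)) (tr_memLp hp ε _))
        ((int_W hx4 hy4).add hGd) fun ω => ?_
      have e1 : f (n + 1) ω - f 0 ω = x ω + d ω := by simp [hx, hd]
      simp only [e1, tr_succ, hG, hs]
      split_ifs
      · have := W_plus (x ω) (y ω) (d ω)
        simpa [hy, hd] using this
      · have := W_minus (x ω) (y ω) (d ω)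
        simp only [hy, hd] at this ⊢
        linarith
    rw [integral_add (int_W hx4 hy4) hGd, h0, add_zero] at h1
    exact h1

lemma burk4 {f : ℕ → Ω → ℝ} (hf : Martingale f ℱ μ) (hp : ∀ k, MemLp (f k) 4 μ)
    (ε : ℕ → Bool) (n : ℕ) :
    ∫ ω, tr f ε n ω ^ 4 ∂μ ≤ 290 * ∫ ω, (f n ω - f 0 ω) ^ 4 ∂μ := by
  have h := burk_W hf hp ε n
  have hx4 : MemLp (fun ω => f n ω - f 0 ω) 4 μ := (hp n).sub (hp 0)
  have hy4 : MemLp (tr f ε n) 4 μ := tr_memLp hp ε n
  have h1 : ∫ ω, (tr f ε n ω ^ 4 - 290 * (f n ω - f 0 ω) ^ 4) ∂μ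
      ≤ ∫ ω, 2 * W (f n ω - f 0 ω) (tr f ε n ω) ∂μ := by
    refine integral_mono ((int_pow4 hy4).sub ((int_pow4 hx4).const_mul 290))
      ((int_W hx4 hy4).const_mul 2) fun ω => ?_
    simp only [W]
    nlinarith [sq_nonneg (tr f ε n ω ^ 2 - 16 * (f n ω - f 0 ω) ^ 2)]
  rw [integral_sub (int_pow4 hy4) ((int_pow4 hx4).const_mul 290), integral_const_mul,
    integral_const_mul] at h1
  linarith

lemma young (u v : ℝ) : |u * v| ≤ 12 * |u| ^ (4 / 3 : ℝ) + v ^ 4 / 16384 := by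
  set w := |u| ^ (1 / 3 : ℝ) with hw
  have hw0 : 0 ≤ w := by positivity
  have h3 : w ^ 3 = |u| := by
    rw [hw, ← Real.rpow_natCast, ← Real.rpow_mul (abs_nonneg _)]; norm_num
  have h4 : w ^ 4 = |u| ^ (4 / 3 : ℝ) := by
    rw [hw, ← Real.rpow_natCast, ← Real.rpow_mul (abs_nonneg _)]; norm_num
  have hv : v ^ 4 = |v| ^ 4 := (Even.pow_abs (by decide) _).symm
  rw [abs_mul, ← h4, ← h3, hv]
  set b := |v|
  have hb : 0 ≤ b := abs_nonneg _
  have : 0 ≤ (16 * w - b) ^ 2 * (3 * (16 * w) ^ 2 + 2 * (16 * w) * b + b ^ 2) := by positivity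
  nlinarith

lemma int_P {u : Ω → ℝ} (hu : MemLp u P μ) : Integrable (fun ω => |u ω| ^ (4 / 3 : ℝ)) μ := by
  have := hu.integrable_norm_rpow (zero_lt_one.trans one_lt_P).ne' P_ne_top
  rwa [P_toReal] at this

lemma int_uv {u v : Ω → ℝ} (hu : MemLp u P μ) (hv : MemLp v 4 μ) :
    Integrable (fun ω => u ω * v ω) μ :=
  Integrable.mono' (g := fun ω => 12 * |u ω| ^ (4 / 3 : ℝ) + v ω ^ 4 / 16384)
    (((int_P hu).const_mul 12).add ((int_pow4 hv).div_const _)) (hu.1.mul hv.1)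
    (Filter.Eventually.of_forall fun ω => young _ _)

noncomputable def dualFun (y : ℝ) : ℝ := (max y 0) ^ (1 / 3 : ℝ) - (max (-y) 0) ^ (1 / 3 : ℝ)

lemma dualFun_cont : Continuous dualFun := by
  unfold dualFun
  have h : Continuous fun x : ℝ => x ^ (1 / 3 : ℝ) := Real.continuous_rpow_const (by norm_num)
  exact (h.comp (by fun_prop)).sub (h.comp (by fun_prop))

lemma dualFun_spec (y : ℝ) :
    y * dualFun y = |y| ^ (4 / 3 : ℝ) ∧ dualFun y ^ 4 = |y| ^ (4 / 3 : ℝ) := by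
  have key : ∀ z : ℝ, 0 ≤ z → z * z ^ (1 / 3 : ℝ) = z ^ (4 / 3 : ℝ) ∧
      (z ^ (1 / 3 : ℝ)) ^ 4 = z ^ (4 / 3 : ℝ) := by
    intro z hz
    constructor
    · rw [show (4 / 3 : ℝ) = 1 + 1 / 3 by norm_num, Real.rpow_add' hz (by norm_num), Real.rpow_one]
    · rw [← Real.rpow_natCast, ← Real.rpow_mul hz]; norm_num
  unfold dualFun
  rcases le_total 0 y with h | h
  · rw [max_eq_left h, max_eq_right (by linarith : -y ≤ 0), abs_of_nonneg h,
      Real.zero_rpow (by norm_num), sub_zero]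
    exact key y h
  · rw [max_eq_right h, max_eq_left (by linarith : 0 ≤ -y), abs_of_nonpos h,
      Real.zero_rpow (by norm_num), zero_sub]
    have := key (-y) (by linarith)
    constructor
    · linarith [this.1]
    · rw [← this.2]; ring

lemma burkP {f : ℕ → Ω → ℝ} (hf : Martingale f ℱ μ) (hp : ∀ k, MemLp (f k) P μ)
    (ε : ℕ → Bool) (n : ℕ) :
    ∫ ω, |tr f ε n ω| ^ (4 / 3 : ℝ) ∂μ ≤ 17 * ∫ ω, |f n ω - f 0 ω| ^ (4 / 3 : ℝ) ∂μ := by
  have hg : MemLp (tr f ε n) P μ := tr_memLp hp ε n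
  set h : Ω → ℝ := fun ω => dualFun (tr f ε n ω) with hh
  have hhm : AEStronglyMeasurable h μ := dualFun_cont.comp_aestronglyMeasurable hg.1
  have hh4 : MemLp h 4 μ := by
    rw [← integrable_norm_rpow_iff hhm (by norm_num) (by norm_num)]
    refine (int_P hg).congr (Filter.Eventually.of_forall fun ω => ?_)
    have := (dualFun_spec (tr f ε n ω)).2
    simp only [hh, Real.norm_eq_abs, ENNReal.toReal_ofNat]
    rw [← this, show (4 : ℝ) = ((4 : ℕ) : ℝ) by norm_num, Real.rpow_natCast]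
    exact (Even.pow_abs (by decide) _).symm
  have hhi : Integrable h μ := hh4.integrable (by norm_num)
  set H : ℕ → Ω → ℝ := fun k => μ[h | ℱ k] with hH
  have hHm : Martingale H ℱ μ := martingale_condExp h ℱ μ
  have hH4 : ∀ k, MemLp (H k) 4 μ := fun k => hh4.condExp (by norm_num)
  set A := ∫ ω, |tr f ε n ω| ^ (4 / 3 : ℝ) ∂μ with hA
  have hA4 : ∫ ω, h ω ^ 4 ∂μ = A :=
    integral_congr_ae (Filter.Eventually.of_forall fun ω => (dualFun_spec _).2)
  have hHA : ∀ k, ∫ ω, H k ω ^ 4 ∂μ ≤ A := by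
    intro k
    have e : ∀ z : ℝ, ‖z‖ ^ (4 : ℝ) = z ^ 4 := by
      intro z
      rw [show (4 : ℝ) = ((4 : ℕ) : ℝ) by norm_num, Real.rpow_natCast]
      exact Even.pow_abs (by decide) _
    have := integral_norm_condExp_rpow_le (μ := μ) (m := ℱ k) (p := 4) (by norm_num) (f := h)
      (by simp only [e]; exact int_pow4 hh4)
    simp only [e] at this
    rw [← hA4]; exact this
  have hfd : ∀ i j, MemLp (fun ω => f i ω - f j ω) P μ := fun i j => (hp i).sub (hp j)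
  have hHd : ∀ i j, MemLp (fun ω => H i ω - H j ω) 4 μ := fun i j => (hH4 i).sub (hH4 j)
  have hfm : ∀ i j, j ≤ i → StronglyMeasurable[ℱ i] (fun ω => f i ω - f j ω) := fun i j hij =>
    (hf.stronglyMeasurable i).sub ((hf.stronglyMeasurable j).mono (ℱ.mono hij))
  have hHm' : ∀ i j, j ≤ i → StronglyMeasurable[ℱ i] (fun ω => H i ω - H j ω) := fun i j hij =>
    (hHm.stronglyMeasurable i).sub ((hHm.stronglyMeasurable j).mono (ℱ.mono hij))
  have step : ∀ k, k < n → ∫ ω, (f (k + 1) ω - f k ω) * h ω ∂μ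
      = ∫ ω, (f n ω - f 0 ω) * (H (k + 1) ω - H k ω) ∂μ := by
    intro k hk
    have i1 : ∫ ω, (f (k + 1) ω - f k ω) * h ω ∂μ
        = ∫ ω, (f (k + 1) ω - f k ω) * H (k + 1) ω ∂μ :=
      pull (hfm (k + 1) k (Nat.le_succ k)) hhi (int_uv (hfd _ _) hh4)
    have i2 : ∫ ω, H k ω * (f (k + 1) ω - f k ω) ∂μ = 0 :=
      orth hf (Nat.le_succ k) (hHm.stronglyMeasurable k)
        ((int_uv (hfd (k + 1) k) (hH4 k)).congr
          (Filter.Eventually.of_forall fun ω => mul_comm _ _))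
    have i3 : ∫ ω, (H (k + 1) ω - H k ω) * (f n ω - f (k + 1) ω) ∂μ = 0 :=
      orth hf hk (hHm' (k + 1) k (Nat.le_succ k))
        ((int_uv (hfd n (k + 1)) (hHd (k + 1) k)).congr
          (Filter.Eventually.of_forall fun ω => mul_comm _ _))
    have i4 : ∫ ω, (f k ω - f 0 ω) * (H (k + 1) ω - H k ω) ∂μ = 0 :=
      orth hHm (Nat.le_succ k) (hfm k 0 (Nat.zero_le k)) (int_uv (hfd k 0) (hHd (k + 1) k))
    have j1 := int_uv (hfd (k + 1) k) (hH4 (k + 1))
    have j2 : Integrable (fun ω => H k ω * (f (k + 1) ω - f k ω)) μ :=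
      (int_uv (hfd (k + 1) k) (hH4 k)).congr (Filter.Eventually.of_forall fun ω => mul_comm _ _)
    have j3 : Integrable (fun ω => (H (k + 1) ω - H k ω) * (f n ω - f (k + 1) ω)) μ :=
      (int_uv (hfd n (k + 1)) (hHd (k + 1) k)).congr
        (Filter.Eventually.of_forall fun ω => mul_comm _ _)
    have j4 := int_uv (hfd k 0) (hHd (k + 1) k)
    have e : ∫ ω, (f n ω - f 0 ω) * (H (k + 1) ω - H k ω) ∂μ =
        ∫ ω, ((((f (k + 1) ω - f k ω) * H (k + 1) ω - H k ω * (f (k + 1) ω - f k ω)) +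
          (H (k + 1) ω - H k ω) * (f n ω - f (k + 1) ω)) +
          (f k ω - f 0 ω) * (H (k + 1) ω - H k ω)) ∂μ :=
      integral_congr_ae (Filter.Eventually.of_forall fun ω => by ring)
    have j12 : Integrable (fun ω => (f (k + 1) ω - f k ω) * H (k + 1) ω -
      H k ω * (f (k + 1) ω - f k ω)) μ := j1.sub j2
    have j123 : Integrable (fun ω => ((f (k + 1) ω - f k ω) * H (k + 1) ω -
      H k ω * (f (k + 1) ω - f k ω)) + (H (k + 1) ω - H k ω) * (f n ω - f (k + 1) ω)) μ :=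
      j12.add j3
    rw [e, integral_add j123 j4, integral_add j12 j3, integral_sub j1 j2, i1, i2, i3, i4]
    ring
  have main : ∀ m, m ≤ n → ∫ ω, tr f ε m ω * h ω ∂μ
      = ∫ ω, (f n ω - f 0 ω) * tr H ε m ω ∂μ := by
    intro m hm
    induction m with
    | zero => simp [tr]
    | succ m ih =>
      have ih' := ih (Nat.le_of_succ_le hm)
      have st := step m hm
      have k1 := int_uv (tr_memLp hp ε m) hh4
      have k2 := int_uv (hfd (m + 1) m) hh4
      have k3 := int_uv (hfd n 0) (tr_memLp hH4 ε m)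
      have k4 := int_uv (hfd n 0) (hHd (m + 1) m)
      simp only [tr_succ]
      split_ifs
      · simp only [add_mul, mul_add]
        rw [integral_add k1 k2, integral_add k3 k4, ih', st]
      · simp only [← sub_eq_add_neg]
        have e1 : ∀ ω, (tr f ε m ω - (f (m + 1) ω - f m ω)) * h ω
          = tr f ε m ω * h ω - (f (m + 1) ω - f m ω) * h ω := fun ω => by ring
        have e2 : ∀ ω, (f n ω - f 0 ω) * (tr H ε m ω - (H (m + 1) ω - H m ω))
          = (f n ω - f 0 ω) * tr H ε m ω - (f n ω - f 0 ω) * (H (m + 1) ω - H m ω) :=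
          fun ω => by ring
        simp only [e1, e2]
        rw [integral_sub k1 k2, integral_sub k3 k4, ih', st]
  have hA1 : A = ∫ ω, (f n ω - f 0 ω) * tr H ε n ω ∂μ := by
    rw [← main n le_rfl]
    exact integral_congr_ae (Filter.Eventually.of_forall fun ω => (dualFun_spec _).1.symm)
  have hA2 : ∫ ω, (f n ω - f 0 ω) * tr H ε n ω ∂μ ≤
      ∫ ω, (12 * |f n ω - f 0 ω| ^ (4 / 3 : ℝ) + tr H ε n ω ^ 4 / 16384) ∂μ :=
    integral_mono (int_uv (hfd n 0) (tr_memLp hH4 ε n))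
      (((int_P (hfd n 0)).const_mul 12).add ((int_pow4 (tr_memLp hH4 ε n)).div_const _))
      fun ω => (le_abs_self _).trans (young _ _)
  rw [integral_add ((int_P (hfd n 0)).const_mul 12)
    ((int_pow4 (tr_memLp hH4 ε n)).div_const _), integral_const_mul, integral_div] at hA2
  have hA3 := burk4 hHm hH4 ε n
  have hA4' : ∫ ω, (H n ω - H 0 ω) ^ 4 ∂μ ≤ ∫ ω, (8 * H n ω ^ 4 + 8 * H 0 ω ^ 4) ∂μ := by
    refine integral_mono (int_pow4 (hHd n 0))
      (((int_pow4 (hH4 n)).const_mul 8).add ((int_pow4 (hH4 0)).const_mul 8)) fun ω => ?_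
    simp only
    nlinarith [sq_nonneg (H n ω + H 0 ω), sq_nonneg (H n ω ^ 2 - H 0 ω ^ 2),
      sq_nonneg ((H n ω + H 0 ω) ^ 2), mul_nonneg (sq_nonneg (H n ω + H 0 ω))
        (sq_nonneg (H n ω - H 0 ω))]
  rw [integral_add ((int_pow4 (hH4 n)).const_mul 8) ((int_pow4 (hH4 0)).const_mul 8),
    integral_const_mul, integral_const_mul] at hA4'
  have b1 := hHA n
  have b2 := hHA 0
  have hB : 0 ≤ ∫ ω, |f n ω - f 0 ω| ^ (4 / 3 : ℝ) ∂μ := integral_nonneg fun ω => by positivity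
  have hA0 : 0 ≤ A := integral_nonneg fun ω => by positivity
  linarith

lemma tr_map {E F : Type} [NormedAddCommGroup E] [NormedSpace ℝ E] [NormedAddCommGroup F]
    [NormedSpace ℝ F] (L : E →L[ℝ] F) (f : ℕ → Ω → E) (ε : ℕ → Bool) (n : ℕ) (ω : Ω) :
    tr (fun k ω => L (f k ω)) ε n ω = L (tr f ε n ω) := by
  unfold tr
  rw [map_sum]
  refine Finset.sum_congr rfl fun k _ => ?_
  split_ifs <;> simp

lemma burkL {E : Type} [NormedAddCommGroup E] [NormedSpace ℝ E] [CompleteSpace E]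
    {f : ℕ → Ω → E} (hf : Martingale f ℱ μ) (hp : ∀ k, MemLp (f k) P μ) (L : E →L[ℝ] ℝ)
    (ε : ℕ → Bool) (n : ℕ) :
    ∫ ω, |L (tr f ε n ω)| ^ (4 / 3 : ℝ) ∂μ ≤ 17 * ∫ ω, |L (f n ω - f 0 ω)| ^ (4 / 3 : ℝ) ∂μ := by
  have hm : Martingale (fun k ω => L (f k ω)) ℱ μ := by
    refine ⟨fun i => L.continuous.comp_stronglyMeasurable (hf.stronglyMeasurable i), ?_⟩
    intro i j hij
    filter_upwards [L.comp_condExp_comm (m := ℱ i) (hf.integrable j), hf.condExp_ae_eq hij]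
      with ω e1 e2
    have : (fun ω => L (f j ω)) = L ∘ f j := rfl
    rw [this, ← e1, Function.comp_apply, e2]
  have := burkP hm (fun k => L.comp_memLp' (hp k)) ε n
  simpa only [tr_map, map_sub] using this

lemma cplx_bounds (z : ℂ) : ‖z‖ ^ (4 / 3 : ℝ) ≤ 3 * (|z.re| ^ (4 / 3 : ℝ) + |z.im| ^ (4 / 3 : ℝ)) ∧
    |z.re| ^ (4 / 3 : ℝ) + |z.im| ^ (4 / 3 : ℝ) ≤ 2 * ‖z‖ ^ (4 / 3 : ℝ) := by
  constructor
  · have h1 : ‖z‖ ≤ 2 * max |z.re| |z.im| := by
      have := Complex.norm_le_abs_re_add_abs_im z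
      have := le_max_left |z.re| |z.im|
      have := le_max_right |z.re| |z.im|
      linarith
    have h0 : 0 ≤ max |z.re| |z.im| := le_max_of_le_left (abs_nonneg _)
    have h2 : (2 : ℝ) ^ (4 / 3 : ℝ) ≤ 3 := by
      have : ((2 : ℝ) ^ (4 / 3 : ℝ)) ^ 3 = 16 := by
        rw [← Real.rpow_natCast, ← Real.rpow_mul (by norm_num)]; norm_num
      by_contra hc
      push Not at hc
      have := pow_lt_pow_left₀ hc (by norm_num) (n := 3) (by norm_num)
      linarith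
    have h3 : (max |z.re| |z.im|) ^ (4 / 3 : ℝ) ≤ |z.re| ^ (4 / 3 : ℝ) + |z.im| ^ (4 / 3 : ℝ) := by
      have a1 : 0 ≤ |z.re| ^ (4 / 3 : ℝ) := by positivity
      have a2 : 0 ≤ |z.im| ^ (4 / 3 : ℝ) := by positivity
      rcases le_total |z.re| |z.im| with h | h
      · rw [max_eq_right h]; linarith
      · rw [max_eq_left h]; linarith
    calc ‖z‖ ^ (4 / 3 : ℝ) ≤ (2 * max |z.re| |z.im|) ^ (4 / 3 : ℝ) :=
          Real.rpow_le_rpow (norm_nonneg _) h1 (by norm_num)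
      _ = 2 ^ (4 / 3 : ℝ) * (max |z.re| |z.im|) ^ (4 / 3 : ℝ) := Real.mul_rpow (by norm_num) h0
      _ ≤ _ := mul_le_mul h2 h3 (by positivity) (by norm_num)
  · have h1 := Real.rpow_le_rpow (abs_nonneg _) (Complex.abs_re_le_norm z) (z := 4 / 3)
      (by norm_num)
    have h2 := Real.rpow_le_rpow (abs_nonneg _) (Complex.abs_im_le_norm z) (z := 4 / 3)
      (by norm_num)
    linarith

lemma int_PE {E : Type} [NormedAddCommGroup E] {u : Ω → E} (hu : MemLp u P μ) :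
    Integrable (fun ω => ‖u ω‖ ^ (4 / 3 : ℝ)) μ := by
  have := hu.integrable_norm_rpow (zero_lt_one.trans one_lt_P).ne' P_ne_top
  rwa [P_toReal] at this

lemma burkC {E : Type} [NormedAddCommGroup E] [NormedSpace ℝ E] [CompleteSpace E]
    {f : ℕ → Ω → E} (hf : Martingale f ℱ μ) (hp : ∀ k, MemLp (f k) P μ) (L : E →L[ℝ] ℂ)
    (ε : ℕ → Bool) (n : ℕ) :
    ∫ ω, ‖L (tr f ε n ω)‖ ^ (4 / 3 : ℝ) ∂μ ≤ 102 * ∫ ω, ‖L (f n ω - f 0 ω)‖ ^ (4 / 3 : ℝ) ∂μ := by
  have h1 := burkL hf hp (Complex.reCLM.comp L) ε n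
  have h2 := burkL hf hp (Complex.imCLM.comp L) ε n
  have hg := tr_memLp hp ε n
  have hx : MemLp (fun ω => f n ω - f 0 ω) P μ := (hp n).sub (hp 0)
  have a1 := int_P ((Complex.reCLM.comp L).comp_memLp' hg)
  have a2 := int_P ((Complex.imCLM.comp L).comp_memLp' hg)
  have a3 := int_P ((Complex.reCLM.comp L).comp_memLp' hx)
  have a4 := int_P ((Complex.imCLM.comp L).comp_memLp' hx)
  have a5 := int_PE (L.comp_memLp' hg)
  have a6 := int_PE (L.comp_memLp' hx)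
  simp only [ContinuousLinearMap.comp_apply, Complex.reCLM_apply, Complex.imCLM_apply,
    Function.comp_apply] at h1 h2 a1 a2 a3 a4 a5 a6
  have b1 : ∫ ω, ‖L (tr f ε n ω)‖ ^ (4 / 3 : ℝ) ∂μ ≤
      ∫ ω, 3 * (|(L (tr f ε n ω)).re| ^ (4 / 3 : ℝ) + |(L (tr f ε n ω)).im| ^ (4 / 3 : ℝ)) ∂μ :=
    integral_mono a5 ((a1.add a2).const_mul 3) fun ω => (cplx_bounds _).1
  have b2 : ∫ ω, (|(L (f n ω - f 0 ω)).re| ^ (4 / 3 : ℝ) +
      |(L (f n ω - f 0 ω)).im| ^ (4 / 3 : ℝ)) ∂μ ≤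
      ∫ ω, 2 * ‖L (f n ω - f 0 ω)‖ ^ (4 / 3 : ℝ) ∂μ :=
    integral_mono (a3.add a4) (a6.const_mul 2) fun ω => (cplx_bounds _).2
  rw [integral_const_mul, integral_add a1 a2] at b1
  rw [integral_const_mul, integral_add a3 a4] at b2
  linarith

lemma hasSum_int {g : Ω → Y} (hg : MemLp g P μ) :
    HasSum (fun j => ∫ ω, ‖g ω j‖ ^ (4 / 3 : ℝ) ∂μ) (∫ ω, ‖g ω‖ ^ (4 / 3 : ℝ) ∂μ) := by
  have hj : ∀ j, Integrable (fun ω => ‖g ω j‖ ^ (4 / 3 : ℝ)) μ := fun j =>
    int_PE ((lp.evalCLM ℂ (fun _ : ℕ => ℂ) P j).comp_memLp' hg)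
  have hs : Summable fun j => ∫ ω, ‖‖g ω j‖ ^ (4 / 3 : ℝ)‖ ∂μ := by
    refine summable_of_sum_le (c := ∫ ω, ‖g ω‖ ^ (4 / 3 : ℝ) ∂μ)
      (fun j => integral_nonneg fun ω => norm_nonneg _) fun F => ?_
    rw [← integral_finsetSum _ fun j _ => (hj j).norm]
    refine integral_mono (integrable_finsetSum _ fun j _ => (hj j).norm) (int_PE hg) fun ω => ?_
    have := sum_le_hasSum F (fun j _ => by positivity) (hasSum_Y (g ω))
    refine le_trans (le_of_eq ?_) this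
    refine Finset.sum_congr rfl fun j _ => Real.norm_of_nonneg (by positivity)
  have := hasSum_integral_of_summable_integral_norm hj hs
  simpa only [(hasSum_Y _).tsum_eq] using this

lemma eLp_of_int {E : Type} [NormedAddCommGroup E] {g x : Ω → E} (hg : MemLp g P μ)
    (hx : MemLp x P μ)
    (h : ∫ ω, ‖g ω‖ ^ (4 / 3 : ℝ) ∂μ ≤ 102 * ∫ ω, ‖x ω‖ ^ (4 / 3 : ℝ) ∂μ) :
    eLpNorm g P μ ≤ (102 : ℝ≥0) * eLpNorm x P μ := by
  rw [hg.eLpNorm_eq_integral_rpow_norm (zero_lt_one.trans one_lt_P).ne' P_ne_top,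
    hx.eLpNorm_eq_integral_rpow_norm (zero_lt_one.trans one_lt_P).ne' P_ne_top, P_toReal]
  have h0 : 0 ≤ ∫ ω, ‖x ω‖ ^ (4 / 3 : ℝ) ∂μ := integral_nonneg fun ω => by positivity
  have h1 : 0 ≤ ∫ ω, ‖g ω‖ ^ (4 / 3 : ℝ) ∂μ := integral_nonneg fun ω => by positivity
  rw [show ((102 : ℝ≥0) : ℝ≥0∞) = ENNReal.ofReal 102 by simp,
    ← ENNReal.ofReal_mul (by norm_num)]
  apply ENNReal.ofReal_le_ofReal
  refine (Real.rpow_le_rpow h1 h (by norm_num)).trans ?_
  rw [Real.mul_rpow (by norm_num) h0]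
  refine mul_le_mul_of_nonneg_right ?_ (by positivity)
  calc (102 : ℝ) ^ (4 / 3 : ℝ)⁻¹ ≤ 102 ^ (1 : ℝ) :=
        Real.rpow_le_rpow_of_exponent_le (by norm_num) (by norm_num)
    _ = 102 := Real.rpow_one _

end Real

lemma umd_complex : IsUMD ℂ := by
  refine ⟨P, one_lt_P, P_ne_top.lt_top, 102, ?_⟩
  intro Ω m0 μ hμ ℱ f hf hp ε n
  have e : (fun ω => ∑ k ∈ Finset.range n, (f (k + 1) ω - f k ω)) = fun ω => f n ω - f 0 ω := by
    funext ω; exact Finset.sum_range_sub (fun k => f k ω) n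
  rw [e]
  exact eLp_of_int (tr_memLp hp ε n) ((hp n).sub (hp 0))
    (burkC hf hp (ContinuousLinearMap.id ℝ ℂ) ε n)

lemma umd_Y : IsUMD Y := by
  refine ⟨P, one_lt_P, P_ne_top.lt_top, 102, ?_⟩
  intro Ω m0 μ hμ ℱ f hf hp ε n
  have e : (fun ω => ∑ k ∈ Finset.range n, (f (k + 1) ω - f k ω)) = fun ω => f n ω - f 0 ω := by
    funext ω; exact Finset.sum_range_sub (fun k => f k ω) n
  rw [e]
  have hx : MemLp (fun ω => f n ω - f 0 ω) P μ := (hp n).sub (hp 0)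
  refine eLp_of_int (tr_memLp hp ε n) hx ?_
  refine hasSum_le (fun j => ?_) (hasSum_int (tr_memLp hp ε n)) ((hasSum_int hx).mul_left 102)
  exact @burkC Ω m0 μ hμ ℱ Y _ NormedSpace.complexToReal _ f hf hp
    (@ContinuousLinearMap.restrictScalars ℂ Y ℂ ℝ _ _ _ _ NormedSpace.complexToReal.toModule
      _ _ _ _ _ _ (lp.evalCLM ℂ (fun _ : ℕ => ℂ) P j)) ε n

end Pool.Agent.Lib.MP_e4fca8_an
end

-- part Pool.Agent.Lib.MP_e4fca8_an.Symbol
section

open MeasureTheory Finset Real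
open scoped ENNReal NNReal

namespace Pool.Agent.Lib.MP_e4fca8_an

lemma interp_complex {θ : ℝ} (h0 : 0 ≤ θ) (h1 : θ ≤ 1) : IsIntermediateUMD θ ℂ := by
  refine ⟨ℂ, inferInstance, inferInstance, inferInstance, ℂ, inferInstance, inferInstance,
    inferInstance, ℂ, inferInstance, inferInstance, inferInstance, ContinuousLinearMap.id ℂ ℂ,
    ContinuousLinearMap.id ℂ ℂ, ContinuousLinearMap.id ℂ ℂ, umd_complex,
    fun _ _ h => h, fun _ _ h => h, fun _ _ h => h, fun w => ⟨w, 0, by simp⟩, 1, ?_, ?_⟩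
  · intro x
    refine ⟨fun _ => x, fun _ => x, fun _ => x, ⟨by fun_prop, by fun_prop, ⟨‖x‖, fun _ _ _ => le_rfl⟩,
      by fun_prop, by fun_prop, fun _ => rfl, fun _ => rfl⟩, rfl, by simp, by simp⟩
  · rintro F f₀ f₁ M ⟨hd, hc, ⟨B, hB⟩, -, -, e0, e1⟩ b0 b1
    refine ⟨F θ, rfl, ?_⟩
    have hM : 0 ≤ M := (norm_nonneg _).trans (b0 0)
    have key := Complex.HadamardThreeLines.norm_le_interp_of_mem_verticalClosedStrip₀₁' F
      (z := θ) (a := M) (b := M)
      (by simp [Complex.HadamardThreeLines.verticalClosedStrip, h0, h1])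
      ⟨hd, by
        rw [Complex.HadamardThreeLines.verticalStrip, Complex.closure_preimage_re,
          closure_Ioo zero_ne_one]
        exact hc⟩
      ⟨B, by
        rintro _ ⟨z, hz, rfl⟩
        exact hB z hz.1 hz.2⟩
      (by
        intro z hz
        have : z = (z.im : ℂ) * Complex.I := by
          apply Complex.ext <;> simp
          simpa using hz
        rw [this, e0]; exact b0 _)
      (by
        intro z hz
        have : z = 1 + (z.im : ℂ) * Complex.I := by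
          apply Complex.ext <;> simp
          simpa using hz
        rw [this, e1]; exact b1 _)
    rw [← Real.rpow_add' hM (by simp)] at key
    simpa using key

noncomputable def dl (j : ℕ) : ℝ := ((j : ℝ) + 1) ^ (-(2 / 3) : ℝ)

lemma dl_pos (j : ℕ) : 0 < dl j := by unfold dl; positivity

noncomputable def ex (t : ℝ) : ℂ := Complex.exp (Complex.I * (2 * π * t : ℝ))

lemma norm_ex (t : ℝ) : ‖ex t‖ = 1 := Complex.norm_exp_I_mul_ofReal _

lemma ex_add (s t : ℝ) : ex (s + t) = ex s * ex t := by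
  unfold ex
  rw [← Complex.exp_add]
  congr 1
  push_cast
  ring

lemma ex_zero : ex 0 = 1 := by simp [ex]

lemma ex_cont : Continuous ex := by unfold ex; fun_prop

lemma ex_lip (s t : ℝ) : ‖ex s - ex t‖ ≤ 2 * π * |s - t| := by
  have : ex s - ex t = ex t * (ex (s - t) - 1) := by
    rw [mul_sub, ← ex_add]; simp
  rw [this, norm_mul, norm_ex, one_mul]
  refine Real.norm_exp_I_mul_ofReal_sub_one_le.trans ?_
  rw [Real.norm_eq_abs, abs_mul, abs_of_pos (by positivity)]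

noncomputable def sing (j : ℕ) : ℂ →L[ℂ] Y :=
  lp.singleContinuousLinearMap ℂ (fun _ : ℕ => ℂ) P j

lemma sing_apply (j : ℕ) (z : ℂ) : sing j z = lp.single P j z := rfl

lemma norm_sing (j : ℕ) : ‖sing j‖ ≤ 1 := by
  refine ContinuousLinearMap.opNorm_le_bound _ zero_le_one fun z => ?_
  rw [sing_apply, lp.norm_single (zero_lt_one.trans one_lt_P), one_mul]

def Iv (j : ℕ) : Set ℝ := Set.Ico ((2 : ℝ) ^ j) (2 ^ j + 1)

noncomputable def mj (j : ℕ) (ξ : ℝ) : ℂ →L[ℂ] Y := ((dl j : ℂ) * ex (j * ξ)) • sing j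

noncomputable def symb (ξ : ℝ) : ℂ →L[ℂ] Y := ∑' j, (Iv j).indicator (mj j) ξ

lemma Iv_sub {j : ℕ} {ξ : ℝ} (h : ξ ∈ Iv j) : (2 : ℝ) ^ j ≤ ξ ∧ ξ < 2 ^ (j + 1) := by
  refine ⟨h.1, h.2.trans_le ?_⟩
  have : (1 : ℝ) ≤ 2 ^ j := one_le_pow₀ (by norm_num)
  rw [pow_succ]; linarith

lemma dyadic_unique {j k : ℕ} {ξ : ℝ} (h1 : (2 : ℝ) ^ j ≤ ξ ∧ ξ < 2 ^ (j + 1))
    (h2 : (2 : ℝ) ^ k ≤ ξ ∧ ξ < 2 ^ (k + 1)) : j = k := by
  have a : (2 : ℝ) ^ j < 2 ^ (k + 1) := h1.1.trans_lt h2.2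
  have b : (2 : ℝ) ^ k < 2 ^ (j + 1) := h2.1.trans_lt h1.2
  rw [pow_lt_pow_iff_right₀ (by norm_num)] at a b
  omega

lemma symb_dyadic {j : ℕ} {ξ : ℝ} (h : (2 : ℝ) ^ j ≤ ξ ∧ ξ < 2 ^ (j + 1)) :
    symb ξ = (Iv j).indicator (mj j) ξ := by
  unfold symb
  refine tsum_eq_single j fun k hk => ?_
  refine Set.indicator_of_notMem (fun hξ => hk ?_) _
  exact dyadic_unique (Iv_sub hξ) h

lemma symb_mem {j : ℕ} {ξ : ℝ} (h : ξ ∈ Iv j) : symb ξ = mj j ξ := by
  rw [symb_dyadic (Iv_sub h), Set.indicator_of_mem h]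

lemma symb_not {ξ : ℝ} (h : ∀ j, ξ ∉ Iv j) : symb ξ = 0 := by
  unfold symb
  simp [Set.indicator_of_notMem (h _)]

lemma symb_small {ξ : ℝ} (h : ξ < 1) : symb ξ = 0 := by
  refine symb_not fun j hj => ?_
  have : (1 : ℝ) ≤ 2 ^ j := one_le_pow₀ (by norm_num)
  linarith [hj.1]

lemma mj_cont (j : ℕ) : Continuous (mj j) := by
  unfold mj
  have := ex_cont
  fun_prop

lemma symb_meas : StronglyMeasurable symb := by
  refine stronglyMeasurable_of_tendsto Filter.atTop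
    (f := fun n ξ => ∑ j ∈ Finset.range n, (Iv j).indicator (mj j) ξ) (fun n => ?_) ?_
  · exact Finset.stronglyMeasurable_fun_sum _ fun j _ =>
      (mj_cont j).stronglyMeasurable.indicator measurableSet_Ico
  · rw [tendsto_pi_nhds]
    intro ξ
    apply HasSum.tendsto_sum_nat
    apply Summable.hasSum
    by_cases h : ∃ j, ξ ∈ Iv j
    · obtain ⟨j, hj⟩ := h
      refine summable_of_ne_finset_zero (s := {j}) fun k hk => ?_
      refine Set.indicator_of_notMem (fun hξ => hk ?_) _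
      simpa using dyadic_unique (Iv_sub hξ) (Iv_sub hj)
    · push Not at h
      simp only [Set.indicator_of_notMem (h _)]
      exact summable_zero

lemma symb_rbounded : RBounded (Set.range symb) := by
  have hs : Summable fun j : ℕ => dl j ^ 4 := by
    have h1 : Summable fun j : ℕ => ((j : ℝ)) ^ (-(8 / 3) : ℝ) :=
      Real.summable_nat_rpow.mpr (by norm_num)
    have h2 := (summable_nat_add_iff 1).mpr h1
    refine h2.congr fun j => ?_
    unfold dl
    rw [← Real.rpow_natCast, ← Real.rpow_mul (by positivity)]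
    push_cast
    norm_num
  set T := ∑' j, dl j ^ 4 with hT
  have hT0 : 0 ≤ T := tsum_nonneg fun j => by have := dl_pos j; positivity
  refine ⟨2 * (T + 1), fun n A x hA => ?_⟩
  have hex : ∀ i, ∃ (j : ℕ) (c : ℂ), ‖c‖ ≤ dl j ∧ ∀ z, A i z = lp.single P j (c * z) := by
    intro i
    obtain ⟨ξ, hξ⟩ := hA i
    by_cases h : ∃ j, ξ ∈ Iv j
    · obtain ⟨j, hj⟩ := h
      refine ⟨j, (dl j : ℂ) * ex (j * ξ), ?_, fun z => ?_⟩
      · rw [norm_mul, norm_ex, mul_one, Complex.norm_real, Real.norm_of_nonneg (dl_pos j).le]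
      · rw [← hξ, symb_mem hj, mj, smul_apply, ← map_smul, sing_apply,
          smul_eq_mul]
    · push Not at h
      refine ⟨0, 0, by simpa using (dl_pos 0).le, fun z => ?_⟩
      rw [← hξ, symb_not h]; simp
  choose j c hc hAc using hex
  simp only [hAc]
  refine rbound_aux dl dl_pos (T + 1) (fun F => ?_) (by positivity) j c x hc
  have h1 : ∑ j ∈ F, dl j ^ 4 ≤ T :=
    hs.sum_le_tsum F fun j _ => by have := dl_pos j; positivity
  have h2 : T + 1 ≤ (T + 1) ^ 4 := le_self_pow₀ (by linarith) (by norm_num)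
  linarith

lemma fin_telescope {N : ℕ} (g : Fin (N + 1) → ℝ) :
    ∑ i : Fin N, (g i.succ - g i.castSucc) = g (Fin.last N) - g 0 := by
  have h1 := Fin.sum_univ_succ g
  have h2 := Fin.sum_univ_castSucc g
  rw [Finset.sum_sub_distrib]
  linarith

lemma symb_var : DyadicVariationBounded (3 / 2) symb := by
  refine ⟨14, fun k N u hu hJ => ?_⟩
  have zero_case : (∀ i, u i < 1) →
      (∑ i : Fin N, ‖symb (u i.succ) - symb (u i.castSucc)‖ ^ (3 / 2 : ℝ)) ^ (1 / (3 / 2) : ℝ)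
        ≤ 14 := by
    intro h
    simp only [symb_small (h _)]
    simp
  rcases hJ with hJ | hJ
  swap
  · refine zero_case fun i => ?_
    have h1 := (hJ i).1
    have : (0 : ℝ) < 2 ^ k := by positivity
    linarith
  rcases lt_or_ge k 0 with hk | hk
  · refine zero_case fun i => ?_
    have h1 := (hJ i).2
    have : (2 : ℝ) ^ (k + 1) ≤ 1 := zpow_le_one_of_nonpos₀ (by norm_num) (by omega)
    linarith
  obtain ⟨j, rfl⟩ := Int.eq_ofNat_of_zero_le hk
  have hJ' : ∀ i, (2 : ℝ) ^ j ≤ u i ∧ u i < 2 ^ (j + 1) := by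
    intro i
    have := hJ i
    rw [show ((j : ℤ) + 1) = ((j + 1 : ℕ) : ℤ) by push_cast; rfl, zpow_natCast, zpow_natCast]
      at this
    exact this
  set c : ℝ := 2 ^ j + 1 with hc
  set g : ℝ → ℂ := fun v => if v < c then (dl j : ℂ) * ex (j * v) else 0 with hg
  have hsym : ∀ i, symb (u i) = g (u i) • sing j := by
    intro i
    rw [symb_dyadic (hJ' i)]
    simp only [hg]
    split_ifs with h
    · rw [Set.indicator_of_mem (show u i ∈ Iv j from ⟨(hJ' i).1, h⟩)]; rfl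
    · rw [Set.indicator_of_notMem (fun hh : u i ∈ Iv j => h hh.2)]; simp
  have hδ := dl_pos j
  have hgn : ∀ v, ‖g v‖ ≤ dl j := by
    intro v
    simp only [hg]
    split_ifs
    · rw [norm_mul, norm_ex, mul_one, Complex.norm_real, Real.norm_of_nonneg hδ.le]
    · simpa using hδ.le
  set φ : ℝ → ℝ := fun v => 2 * π * j * min v c + (if v < c then 0 else 1) with hφ
  have hpi := Real.pi_pos
  have hlip : ∀ v w, v ≤ w → ‖g w - g v‖ ≤ dl j * (φ w - φ v) := by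
    intro v w hvw
    simp only [hg, hφ]
    by_cases hw : w < c
    · have hv : v < c := hvw.trans_lt hw
      simp only [hw, hv, if_true, min_eq_left hw.le, min_eq_left hv.le]
      rw [← mul_sub, norm_mul, Complex.norm_real, Real.norm_of_nonneg hδ.le]
      refine mul_le_mul_of_nonneg_left ((ex_lip _ _).trans_eq ?_) hδ.le
      rw [← mul_sub, abs_mul, abs_of_nonneg (by positivity), abs_of_nonneg (by linarith)]
      ring
    · by_cases hv : v < c
      · simp only [hw, hv, if_true, if_false, min_eq_left hv.le, min_eq_right (not_lt.mp hw)]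
        rw [zero_sub, norm_neg, norm_mul, norm_ex, mul_one, Complex.norm_real,
          Real.norm_of_nonneg hδ.le]
        have : 0 ≤ 2 * π * j * (c - v) := by have := hv.le; have : 0 ≤ c - v := by linarith
                                             positivity
        nlinarith
      · simp [hw, hv, min_eq_right (not_lt.mp hw), min_eq_right (not_lt.mp hv)]
  have hterm : ∀ i : Fin N, ‖symb (u i.succ) - symb (u i.castSucc)‖ ^ (3 / 2 : ℝ)
      ≤ (2 * dl j) ^ (1 / 2 : ℝ) * dl j * (φ (u i.succ) - φ (u i.castSucc)) := by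
    intro i
    rw [hsym, hsym, ← sub_smul]
    set a := ‖(g (u i.succ) - g (u i.castSucc)) • sing j‖ with ha
    have ha0 : 0 ≤ a := norm_nonneg _
    have h1 : a ≤ ‖g (u i.succ) - g (u i.castSucc)‖ := by
      rw [ha, norm_smul]
      exact mul_le_of_le_one_right (norm_nonneg _) (norm_sing j)
    have h2 : a ≤ 2 * dl j := by
      have := norm_sub_le (g (u i.succ)) (g (u i.castSucc))
      linarith [hgn (u i.succ), hgn (u i.castSucc)]
    have h3 := h1.trans (hlip _ _ (hu (Fin.castSucc_lt_succ (i := i))).le)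
    rw [show (3 / 2 : ℝ) = 1 / 2 + 1 by norm_num, Real.rpow_add' ha0 (by norm_num),
      Real.rpow_one, mul_assoc]
    exact mul_le_mul (Real.rpow_le_rpow ha0 h2 (by norm_num)) h3 ha0 (by positivity)
  have hsum : ∑ i : Fin N, ‖symb (u i.succ) - symb (u i.castSucc)‖ ^ (3 / 2 : ℝ) ≤ 14 := by
    refine (Finset.sum_le_sum fun i _ => hterm i).trans ?_
    rw [← Finset.mul_sum, fin_telescope (fun i => φ (u i))]
    have e1 : (2 * dl j) ^ (1 / 2 : ℝ) * dl j = 2 ^ (1 / 2 : ℝ) * ((j : ℝ) + 1)⁻¹ := by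
      rw [Real.mul_rpow (by norm_num) hδ.le, mul_assoc]
      congr 1
      unfold dl
      rw [← Real.rpow_mul (by positivity), ← Real.rpow_add (by positivity), ← Real.rpow_neg_one]
      norm_num
    have e2 : (2 : ℝ) ^ (1 / 2 : ℝ) ≤ 2 := by
      calc (2 : ℝ) ^ (1 / 2 : ℝ) ≤ 2 ^ (1 : ℝ) :=
            Real.rpow_le_rpow_of_exponent_le (by norm_num) (by norm_num)
        _ = 2 := Real.rpow_one _
    have e3 : φ (u (Fin.last N)) - φ (u 0) ≤ 7 * ((j : ℝ) + 1) := by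
      simp only [hφ]
      have a1 : min (u (Fin.last N)) c ≤ c := min_le_right _ _
      have a2 : c - 1 ≤ min (u 0) c := le_min (by linarith [(hJ' 0).1]) (by linarith)
      have a3 : 2 * π * j * (min (u (Fin.last N)) c - min (u 0) c) ≤ 2 * π * j * 1 :=
        mul_le_mul_of_nonneg_left (by linarith) (by positivity)
      have a4 : π < 3.15 := Real.pi_lt_d2
      have a5 : (0 : ℝ) ≤ j := by positivity
      split_ifs <;> nlinarith
    have hj1 : (0 : ℝ) < (j : ℝ) + 1 := by positivity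
    rw [e1]
    calc 2 ^ (1 / 2 : ℝ) * ((j : ℝ) + 1)⁻¹ * (φ (u (Fin.last N)) - φ (u 0))
        ≤ 2 ^ (1 / 2 : ℝ) * ((j : ℝ) + 1)⁻¹ * (7 * ((j : ℝ) + 1)) :=
          mul_le_mul_of_nonneg_left e3 (by positivity)
      _ = 7 * 2 ^ (1 / 2 : ℝ) := by field_simp
      _ ≤ 14 := by linarith
  refine (Real.rpow_le_rpow (Finset.sum_nonneg fun i _ => by positivity) hsum
    (by norm_num)).trans ?_
  calc (14 : ℝ) ^ (1 / (3 / 2) : ℝ) ≤ 14 ^ (1 : ℝ) :=
        Real.rpow_le_rpow_of_exponent_le (by norm_num) (by norm_num)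
    _ = 14 := Real.rpow_one _

end Pool.Agent.Lib.MP_e4fca8_an
end

-- part Pool.Agent.Lib.MP_e4fca8_an.Unbounded
section

open MeasureTheory Finset Real
open scoped ENNReal NNReal FourierTransform SchwartzMap ContDiff

namespace Pool.Agent.Lib.MP_e4fca8_an

noncomputable def bump : ContDiffBump (1 / 2 : ℝ) := ⟨1 / 8, 1 / 4, by norm_num, by norm_num⟩

noncomputable def psi (ξ : ℝ) : ℂ := (bump ξ : ℝ)

lemma psi_smooth : ContDiff ℝ ∞ psi := Complex.ofRealCLM.contDiff.comp bump.contDiff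

lemma psi_ne {ξ : ℝ} (h : psi ξ ≠ 0) : 0 ≤ ξ ∧ ξ < 1 := by
  have h1 : bump ξ ≠ 0 := fun h0 => h (by simp [psi, h0])
  have h2 : ξ ∈ Function.support bump := h1
  rw [bump.support_eq, Metric.mem_ball, Real.dist_eq, abs_lt] at h2
  have : bump.rOut = 1 / 4 := rfl
  rw [this] at h2
  constructor <;> linarith [h2.1, h2.2]

lemma psi_half : psi (1 / 2) = 1 := by
  have : bump (1 / 2) = 1 := bump.one_of_mem_closedBall (Metric.mem_closedBall_self bump.rIn_pos.le)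
  simp only [psi, this, Complex.ofReal_one]

lemma psi_cs : HasCompactSupport psi := by
  refine HasCompactSupport.intro (K := Set.Icc 0 1) isCompact_Icc fun x hx => ?_
  by_contra h
  exact hx ⟨(psi_ne h).1, (psi_ne h).2.le⟩

noncomputable def psiS : 𝓢(ℝ, ℂ) := psi_cs.toSchwartzMap psi_smooth

noncomputable def phiS : 𝓢(ℝ, ℂ) := 𝓕⁻ psiS

lemma fourierInv_ex {E : Type} [NormedAddCommGroup E] [NormedSpace ℂ E] (g : ℝ → E) (x : ℝ) :
    𝓕⁻ g x = ∫ ξ, ex (ξ * x) • g ξ := by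
  rw [Real.fourierInv_eq']
  refine integral_congr_ae (Filter.Eventually.of_forall fun ξ => ?_)
  simp only [ex]
  congr 2
  rw [mul_comm]
  congr 2
  simp [mul_comm]

lemma phi_eq (y : ℝ) : phiS y = ∫ ξ, ex (ξ * y) * psi ξ := by
  rw [phiS, SchwartzMap.fourierInv_coe, fourierInv_ex]
  rfl

lemma shift_int (c y : ℝ) : ∫ ξ, ex (ξ * y) * psi (ξ - c) = ex (c * y) * phiS y := by
  rw [phi_eq, ← integral_const_mul, ← integral_add_right_eq_self _ c]
  refine integral_congr_ae (Filter.Eventually.of_forall fun ξ => ?_)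
  simp only [add_sub_cancel_right, add_mul, ex_add]
  ring

lemma int_shift (c y : ℝ) : Integrable fun ξ => ex (ξ * y) * psi (ξ - c) := by
  refine Continuous.integrable_of_hasCompactSupport ?_ ?_
  · have := ex_cont
    have := psi_smooth.continuous
    fun_prop
  · refine HasCompactSupport.intro (K := Set.Icc c (c + 1)) isCompact_Icc fun x hx => ?_
    by_contra h
    have := psi_ne (right_ne_zero_of_mul h)
    exact hx ⟨by linarith [this.1], by linarith [this.2]⟩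

noncomputable def gN (N : ℕ) (ξ : ℝ) : ℂ := ∑ j ∈ Finset.range N, ex (-(j * ξ)) * psi (ξ - 2 ^ j)

lemma gN_smooth (N : ℕ) : ContDiff ℝ ∞ (gN N) := by
  unfold gN
  refine ContDiff.sum fun j _ => ContDiff.mul ?_ (psi_smooth.comp (by fun_prop))
  unfold ex
  refine Complex.contDiff_exp.comp (ContDiff.mul contDiff_const ?_)
  have : ContDiff ℝ ∞ (fun ξ : ℝ => 2 * π * -(j * ξ)) := by fun_prop
  exact Complex.ofRealCLM.contDiff.comp this

lemma gN_cs (N : ℕ) : HasCompactSupport (gN N) := by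
  refine HasCompactSupport.intro (K := Set.Icc 0 (2 ^ N + 1)) isCompact_Icc fun x hx => ?_
  refine Finset.sum_eq_zero fun j hj => ?_
  by_contra h
  have h1 := psi_ne (right_ne_zero_of_mul h)
  have h2 : (2 : ℝ) ^ j ≤ 2 ^ N :=
    pow_le_pow_right₀ (by norm_num) (Finset.mem_range.mp hj).le
  have h3 : (0 : ℝ) < 2 ^ j := by positivity
  exact hx ⟨by linarith [h1.1], by linarith [h1.2]⟩

noncomputable def fN (N : ℕ) : 𝓢(ℝ, ℂ) := 𝓕⁻ ((gN_cs N).toSchwartzMap (gN_smooth N))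

lemma fourier_fN (N : ℕ) : 𝓕 (fN N : ℝ → ℂ) = gN N := by
  rw [← SchwartzMap.fourier_coe, fN, FourierTransform.fourier_fourierInv_eq]
  rfl

lemma fN_eq (N : ℕ) (x : ℝ) :
    fN N x = ∑ j ∈ Finset.range N, ex (2 ^ j * (x - j)) * phiS (x - j) := by
  rw [fN, SchwartzMap.fourierInv_coe, fourierInv_ex]
  have e : ∀ ξ : ℝ, ex (ξ * x) • ((gN_cs N).toSchwartzMap (gN_smooth N)) ξ
      = ∑ j ∈ Finset.range N, ex (ξ * (x - j)) * psi (ξ - 2 ^ j) := by
    intro ξ
    change ex (ξ * x) * gN N ξ = _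
    rw [gN, Finset.mul_sum]
    refine Finset.sum_congr rfl fun j _ => ?_
    rw [← mul_assoc, ← ex_add]
    congr 2
    ring
  simp only [e]
  rw [integral_finsetSum _ fun j _ => int_shift _ _]
  simp only [shift_int]

lemma symb_gN (N : ℕ) (ξ : ℝ) : symb ξ (gN N ξ)
    = ∑ j ∈ Finset.range N, psi (ξ - 2 ^ j) • sing j (dl j) := by
  rw [gN, map_sum]
  refine Finset.sum_congr rfl fun j _ => ?_
  by_cases h : psi (ξ - 2 ^ j) = 0
  · simp [h]
  · have h1 := psi_ne h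
    have h2 : ξ ∈ Iv j := ⟨by linarith [h1.1], by linarith [h1.2]⟩
    rw [symb_mem h2, mj, smul_apply, ← map_smul, ← map_smul]
    congr 1
    have : ex (j * ξ) * ex (-(j * ξ)) = 1 := by rw [← ex_add]; simp [ex_zero]
    simp only [smul_eq_mul]
    linear_combination (dl j : ℂ) * psi (ξ - 2 ^ j) * this

lemma T_eq (N : ℕ) (x : ℝ) :
    𝓕⁻ (fun ξ : ℝ => symb ξ (𝓕 (fN N : ℝ → ℂ) ξ)) x
      = ∑ j ∈ Finset.range N, (lp.single P j (ex (2 ^ j * x) * phiS x * dl j) : Y) := by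
  rw [fourier_fN, fourierInv_ex]
  simp only [symb_gN, Finset.smul_sum, smul_smul]
  rw [integral_finsetSum _ fun j _ => (int_shift _ _).smul_const _]
  refine Finset.sum_congr rfl fun j _ => ?_
  rw [integral_smul_const, shift_int, ← map_smul, sing_apply, smul_eq_mul]

lemma T_lower (N : ℕ) (x : ℝ) : (N : ℝ) ^ (1 / 12 : ℝ) * ‖phiS x‖ ≤
    ‖𝓕⁻ (fun ξ : ℝ => symb ξ (𝓕 (fN N : ℝ → ℂ) ξ)) x‖ := by
  rw [T_eq]
  rcases Nat.eq_zero_or_pos N with rfl | hN
  · simp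
  have hN' : (0 : ℝ) < N := by exact_mod_cast hN
  have h1 := lp.norm_sum_single (E := fun _ : ℕ => ℂ) (p := P) (by rw [P_toReal]; norm_num)
    (fun j => ex (2 ^ j * x) * phiS x * dl j) (Finset.range N)
  rw [P_toReal] at h1
  rw [← Real.rpow_le_rpow_iff (z := 4 / 3) (by positivity) (norm_nonneg _) (by norm_num), h1]
  have h2 : ∀ j ∈ Finset.range N, ((N : ℝ) ^ (-(2 / 3) : ℝ) * ‖phiS x‖) ^ (4 / 3 : ℝ)
      ≤ ‖ex (2 ^ j * x) * phiS x * dl j‖ ^ (4 / 3 : ℝ) := by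
    intro j hj
    refine Real.rpow_le_rpow (by positivity) ?_ (by norm_num)
    rw [norm_mul, norm_mul, norm_ex, one_mul, Complex.norm_real,
      Real.norm_of_nonneg (dl_pos j).le, mul_comm]
    refine mul_le_mul_of_nonneg_left ?_ (norm_nonneg _)
    unfold dl
    refine Real.rpow_le_rpow_of_nonpos (by positivity) ?_ (by norm_num)
    exact_mod_cast Finset.mem_range.mp hj
  refine le_trans (le_of_eq ?_) (Finset.sum_le_sum h2)
  rw [Finset.sum_const, Finset.card_range, nsmul_eq_mul,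
    Real.mul_rpow (by positivity) (norm_nonneg _), Real.mul_rpow (by positivity) (norm_nonneg _),
    ← mul_assoc, ← Real.rpow_mul hN'.le, ← Real.rpow_mul hN'.le]
  congr 1
  nth_rewrite 2 [← Real.rpow_one (N : ℝ)]
  rw [← Real.rpow_add hN']
  norm_num

noncomputable def hh (y : ℝ) : ℝ := y / (1 + |y|)

lemma hh_bound (y : ℝ) : -1 ≤ hh y ∧ hh y ≤ 1 := by
  have h : 0 < 1 + |y| := by positivity
  unfold hh
  rw [le_div_iff₀ h, div_le_iff₀ h]
  constructor
  · linarith [neg_abs_le y]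
  · linarith [le_abs_self y]

lemma hh_step (y : ℝ) : 1 / (1 + y ^ 2) ≤ 4 * (hh (y + 1) - hh y) := by
  unfold hh
  rcases le_total 0 y with h | h
  · rw [abs_of_nonneg h, abs_of_nonneg (by linarith : 0 ≤ y + 1), div_sub_div _ _ (by positivity)
      (by positivity), ← mul_div_assoc, div_le_div_iff₀ (by positivity) (by positivity)]
    nlinarith [sq_nonneg (y - 1 / 2)]
  · rcases le_total 0 (y + 1) with h' | h'
    · rw [abs_of_nonpos h, abs_of_nonneg h', div_sub_div _ _ (by linarith) (by linarith),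
        ← mul_div_assoc, div_le_div_iff₀ (by positivity) (by nlinarith)]
      nlinarith [mul_nonneg h' (neg_nonneg.mpr h), sq_nonneg y,
        mul_nonneg (mul_nonneg h' (neg_nonneg.mpr h)) (sq_nonneg y)]
    · rw [abs_of_nonpos h, abs_of_nonpos h', div_sub_div _ _ (by linarith) (by linarith),
        ← mul_div_assoc, div_le_div_iff₀ (by positivity) (by nlinarith)]
      nlinarith [sq_nonneg (y + 1 / 2)]

lemma sum_inv_bound (N : ℕ) (x : ℝ) : ∑ j ∈ Finset.range N, 1 / (1 + (x - j) ^ 2) ≤ 8 := by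
  have h : ∀ N : ℕ, ∑ j ∈ Finset.range N, 1 / (1 + (x - j) ^ 2)
      ≤ 4 * (hh (x + 1) - hh (x - N + 1)) := by
    intro N
    induction N with
    | zero => simp
    | succ n ih =>
      rw [Finset.sum_range_succ]
      have := hh_step (x - n)
      push_cast
      rw [show x - (n + 1) + 1 = x - n by ring]
      linarith
  have := h N
  linarith [(hh_bound (x + 1)).2, (hh_bound (x - N + 1)).1]

lemma phi_decay : ∃ K : ℝ, 0 < K ∧ ∀ x, ‖phiS x‖ ≤ K * (1 / (1 + x ^ 2)) := by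
  obtain ⟨C0, h0, hC0⟩ := phiS.decay 0 0
  obtain ⟨C2, h2, hC2⟩ := phiS.decay 2 0
  refine ⟨C0 + C2, by positivity, fun x => ?_⟩
  have a := hC0 x
  have b := hC2 x
  simp only [norm_iteratedFDeriv_zero, pow_zero, one_mul, Real.norm_eq_abs, sq_abs] at a b
  rw [mul_one_div, le_div_iff₀ (by positivity)]
  linarith

lemma fN_upper : ∃ A : ℝ, 0 ≤ A ∧ ∀ N : ℕ, ∫ x, ‖fN N x‖ ^ (16 : ℝ) ≤ A * N := by
  obtain ⟨K, hK, hφ⟩ := phi_decay
  refine ⟨(8 * K) ^ 15 * ∫ x, ‖phiS x‖, by positivity, fun N => ?_⟩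
  have h1 : ∀ x, ‖fN N x‖ ≤ ∑ j ∈ Finset.range N, ‖phiS (x - j)‖ := by
    intro x
    rw [fN_eq]
    refine (norm_sum_le _ _).trans (le_of_eq ?_)
    refine Finset.sum_congr rfl fun j _ => ?_
    rw [norm_mul, norm_ex, one_mul]
  have h2 : ∀ x, ‖fN N x‖ ≤ 8 * K := by
    intro x
    refine (h1 x).trans ((Finset.sum_le_sum fun j _ => hφ _).trans ?_)
    rw [← Finset.mul_sum, mul_comm]
    exact mul_le_mul_of_nonneg_right (sum_inv_bound N x) hK.le
  have hi : ∀ j : ℕ, Integrable fun x : ℝ => ‖phiS (x - j)‖ := fun j =>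
    (phiS.integrable.comp_sub_right (j : ℝ)).norm
  have h3 : ∫ x, ‖fN N x‖ ^ (16 : ℝ) ≤ ∫ x, (8 * K) ^ 15 * ∑ j ∈ Finset.range N, ‖phiS (x - j)‖ := by
    refine integral_mono_of_nonneg (Filter.Eventually.of_forall fun x => by positivity)
      ((integrable_finsetSum _ fun j _ => hi j).const_mul _)
      (Filter.Eventually.of_forall fun x => ?_)
    simp only
    rw [show (16 : ℝ) = ((16 : ℕ) : ℝ) by norm_num, Real.rpow_natCast, pow_succ]
    exact mul_le_mul (pow_le_pow_left₀ (norm_nonneg _) (h2 x) 15) (h1 x) (norm_nonneg _)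
      (by positivity)
  rw [integral_const_mul, integral_finsetSum _ fun j _ => hi j] at h3
  have h4 : ∀ j : ℕ, ∫ x : ℝ, ‖phiS (x - j)‖ = ∫ x, ‖phiS x‖ := fun j =>
    integral_sub_right_eq_self (fun x => ‖phiS x‖) (j : ℝ)
  simp only [h4, Finset.sum_const, Finset.card_range, nsmul_eq_mul] at h3
  linarith

lemma phi_pos : eLpNorm (phiS : ℝ → ℂ) (ENNReal.ofReal 16) volume ≠ 0 := by
  intro h
  rw [eLpNorm_eq_zero_iff phiS.continuous.aestronglyMeasurable (by simp)] at h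
  have h1 : (phiS : ℝ → ℂ) = 0 :=
    (phiS.continuous.ae_eq_iff_eq volume continuous_zero).mp h
  have h2 : phiS = 0 := by ext x; exact congrFun h1 x
  have h3 : psiS = 𝓕 phiS := by rw [phiS, FourierTransform.fourier_fourierInv_eq]
  rw [h2, FourierTransform.fourier_zero] at h3
  have h4 : psiS (1 / 2) = 1 := psi_half
  rw [h3] at h4
  simp at h4

lemma final_arith {a C A : ℝ} (ha0 : 0 < a) (hC : 0 ≤ C) (hA : 0 ≤ A)
    (key : ∀ N : ℕ, (N : ℝ) ^ (1 / 12 : ℝ) * a ≤ C * (A * N) ^ (1 / 16 : ℝ)) : False := by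
  obtain ⟨M, hM⟩ := exists_nat_gt (C * A ^ (1 / 16 : ℝ) / a)
  have hM0 : (0 : ℝ) < M := lt_of_le_of_lt (by positivity) hM
  have h := key (M ^ 48)
  have e1 : (((M ^ 48 : ℕ) : ℝ)) ^ (1 / 12 : ℝ) = (M : ℝ) ^ 4 := by
    rw [Nat.cast_pow, ← Real.rpow_natCast, ← Real.rpow_mul hM0.le, ← Real.rpow_natCast]
    norm_num
  have e2 : (((M ^ 48 : ℕ) : ℝ)) ^ (1 / 16 : ℝ) = (M : ℝ) ^ 3 := by
    rw [Nat.cast_pow, ← Real.rpow_natCast, ← Real.rpow_mul hM0.le, ← Real.rpow_natCast]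
    norm_num
  rw [Real.mul_rpow hA (Nat.cast_nonneg _), e1, e2] at h
  rw [div_lt_iff₀ ha0] at hM
  have h5 : (0 : ℝ) < (M : ℝ) ^ 3 := by positivity
  generalize A ^ (1 / 16 : ℝ) = B at h hM
  have h6 : (M : ℝ) ^ 3 * (C * B) < (M : ℝ) ^ 3 * (M * a) := mul_lt_mul_of_pos_left hM h5
  have h7 : (M : ℝ) ^ 3 * (M * a) = (M : ℝ) ^ 4 * a := by ring
  have h8 : (M : ℝ) ^ 3 * (C * B) = C * (B * (M : ℝ) ^ 3) := by ring
  linarith

lemma lower_eLp (N : ℕ) :
    ENNReal.ofReal ((N : ℝ) ^ (1 / 12 : ℝ)) * eLpNorm (phiS : ℝ → ℂ) (ENNReal.ofReal 16) volume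
      ≤ eLpNorm (𝓕⁻ (fun ξ : ℝ => symb ξ (𝓕 (fN N : ℝ → ℂ) ξ))) (ENNReal.ofReal 16) volume := by
  have h0 : (0 : ℝ) ≤ (N : ℝ) ^ (1 / 12 : ℝ) := by positivity
  have h1 : eLpNorm (((N : ℝ) ^ (1 / 12 : ℝ)) • (phiS : ℝ → ℂ)) (ENNReal.ofReal 16) volume
      ≤ eLpNorm (𝓕⁻ (fun ξ : ℝ => symb ξ (𝓕 (fN N : ℝ → ℂ) ξ))) (ENNReal.ofReal 16) volume := by
    refine eLpNorm_mono fun x => ?_
    rw [Pi.smul_apply, norm_smul, Real.norm_of_nonneg h0]
    exact T_lower N x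
  rwa [eLpNorm_const_smul, Real.enorm_eq_ofReal h0] at h1

lemma upper_eLp : ∃ A : ℝ, 0 ≤ A ∧ ∀ N : ℕ, eLpNorm (fN N : ℝ → ℂ) (ENNReal.ofReal 16) volume
    ≤ ENNReal.ofReal ((A * N) ^ (1 / 16 : ℝ)) := by
  obtain ⟨A, hA, hfA⟩ := fN_upper
  refine ⟨A, hA, fun N => ?_⟩
  rw [((fN N).memLp (ENNReal.ofReal 16) volume).eLpNorm_eq_integral_rpow_norm (by simp) (by simp),
    ENNReal.toReal_ofReal (by norm_num), one_div]
  exact ENNReal.ofReal_le_ofReal
    (Real.rpow_le_rpow (integral_nonneg fun x => by positivity) (hfA N) (by norm_num))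

lemma symb_unbounded : ¬ MultiplierBounded 16 symb := by
  rintro ⟨C, hC⟩
  obtain ⟨A, hA, hfA⟩ := upper_eLp
  have hfin : eLpNorm (phiS : ℝ → ℂ) (ENNReal.ofReal 16) volume ≠ ⊤ :=
    (phiS.memLp (ENNReal.ofReal 16) volume).eLpNorm_ne_top
  have hpos := phi_pos
  have key : ∀ N : ℕ, ENNReal.ofReal ((N : ℝ) ^ (1 / 12 : ℝ)) *
      eLpNorm (phiS : ℝ → ℂ) (ENNReal.ofReal 16) volume
      ≤ C * ENNReal.ofReal ((A * N) ^ (1 / 16 : ℝ)) := by
    intro N
    have h1 := lower_eLp N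
    have h2 := hC (fN N)
    have h3 := hfA N
    generalize eLpNorm (fN N : ℝ → ℂ) (ENNReal.ofReal 16) volume = b at h2 h3
    refine h1.trans (h2.trans ?_)
    gcongr
  generalize eLpNorm (phiS : ℝ → ℂ) (ENNReal.ofReal 16) volume = a at hfin hpos key
  refine final_arith (ENNReal.toReal_pos hpos hfin) C.coe_nonneg hA fun N => ?_
  have h3 := ENNReal.toReal_mono (ENNReal.mul_ne_top ENNReal.coe_ne_top ENNReal.ofReal_ne_top)
    (key N)
  rwa [ENNReal.toReal_mul, ENNReal.toReal_mul, ENNReal.toReal_ofReal (by positivity),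
    ENNReal.toReal_ofReal (by positivity), ENNReal.coe_toReal] at h3

end Pool.Agent.Lib.MP_e4fca8_an
end
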